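import Pool.Agent.H53.BT.DIG

set_option autoImplicit false

/-!
Row BOH: pigeonhole lower bound for discretised Bohr sets.

M = 2r+1 (odd), X = (M^d-1)/2 (natural division). Consider the X+1 integers n in [0, X] (as naturals)
and the map n |-> (fun g : G => (g*n).val * Q / R), with values < Q (as (g*n).val < R). Some fibre F has
(X+1) <= Q^|G| * |F| (`Finset.exists_le_card_fiber_of_mul_le_card_of_maps_to` or contrapositive with
`Finset.card_le_mul_card_image`). Fix n0 in F. For n in F: |(g n).val - (g n0).val| * Q < R <= Q(e+1)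
so the difference of the vals is at most e in absolute value, and it represents g*(n-n0) in ZMod R, so
(g*(n-n0)).valMinAbs.natAbs <= e (`ZMod.natAbs_min_of_le_div_two`, `ZMod.natAbs_valMinAbs_le`).
n - n0 has absolute value <= X so is `dg M d y` with y in the box (`dig_surj`); n |-> y is injective.
So |F| <= |KB|, and M^d <= 2(X+1).
-/

namespace Pool.H53.BT

theorem boh_close (R Q e A B : ℕ) (hR : 1 ≤ R) (h : R ≤ Q * (e + 1))
    (hAB : A * Q / R = B * Q / R) : ((A : ℤ) - (B : ℤ)).natAbs ≤ e := by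
  have a1 := Nat.div_mul_le_self (A * Q) R
  have a2 := Nat.lt_div_mul_add (a := A * Q) (b := R) (by omega)
  have b1 := Nat.div_mul_le_self (B * Q) R
  have b2 := Nat.lt_div_mul_add (a := B * Q) (b := R) (by omega)
  rw [hAB] at a1 a2
  generalize B * Q / R = q at a1 a2 b1 b2
  clear hAB
  by_contra hne
  push Not at hne
  rcases le_total A B with hAB' | hAB'
  · obtain ⟨k, rfl⟩ := Nat.exists_eq_add_of_le hAB'
    have hk : e + 1 ≤ k := by omega
    have h1 : Q * (e + 1) ≤ k * Q := by
      rw [mul_comm]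
      exact Nat.mul_le_mul_right Q hk
    rw [add_mul] at b1 b2
    omega
  · obtain ⟨k, rfl⟩ := Nat.exists_eq_add_of_le hAB'
    have hk : e + 1 ≤ k := by omega
    have h1 : Q * (e + 1) ≤ k * Q := by
      rw [mul_comm]
      exact Nat.mul_le_mul_right Q hk
    rw [add_mul] at a1 a2
    omega

theorem boh_mem {M d r R : ℕ} {G : Finset (ZMod R)} {e : ℕ} {y : Fin d → ℤ} (h1 : y ∈ box d r)
    (h2 : ∀ g ∈ G, ((g * ((dg M d y : ℤ) : ZMod R)).valMinAbs).natAbs ≤ e) :
    y ∈ KB M d r R G e := by
  unfold KB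
  simp only [Finset.mem_filter]
  exact ⟨h1, h2⟩

theorem boh_card (r d R Q e : ℕ) (hR : 1 ≤ R) (hQ : 1 ≤ Q) (G : Finset (ZMod R))
    (h : R ≤ Q * (e + 1)) :
    (2 * r + 1) ^ d ≤ 2 * (Q ^ G.card * (KB (2 * r + 1) d r R G e).card) := by
  classical
  have : NeZero R := ⟨by omega⟩
  obtain ⟨X, hX⟩ : ∃ X : ℕ, (2 * r + 1) ^ d = 2 * X + 1 := by
    have h1 : Odd ((2 * r + 1) ^ d) := Odd.pow ⟨r, rfl⟩
    exact h1
  let φ : ℕ → (G → ℕ) := fun n g => (g.1 * (n : ZMod R)).val * Q / R
  have hφ : (Finset.range (X + 1)).image φ ⊆ Fintype.piFinset (fun _ : G => Finset.range Q) := by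
    intro f hf
    obtain ⟨n, -, rfl⟩ := Finset.mem_image.1 hf
    rw [Fintype.mem_piFinset]
    intro g
    rw [Finset.mem_range]
    show (g.1 * (n : ZMod R)).val * Q / R < Q
    rw [Nat.div_lt_iff_lt_mul (by omega)]
    have h1 := ZMod.val_lt (g.1 * (n : ZMod R))
    rw [mul_comm Q R]
    exact Nat.mul_lt_mul_of_pos_right h1 (by omega)
  have hcard : ((Finset.range (X + 1)).image φ).card ≤ Q ^ G.card := by
    refine (Finset.card_le_card hφ).trans ?_
    rw [Fintype.card_piFinset]
    simp
  have hfib : ∀ a ∈ (Finset.range (X + 1)).image φ,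
      ((Finset.range (X + 1)).filter fun x => φ x = a).card ≤
        (KB (2 * r + 1) d r R G e).card := by
    intro a ha
    obtain ⟨n0, hn0, rfl⟩ := Finset.mem_image.1 ha
    rw [Finset.mem_range] at hn0
    have hy : ∀ n ∈ (Finset.range (X + 1)).filter (fun x => φ x = φ n0),
        ∃ y ∈ box d r, dg (2 * r + 1) d y = (n : ℤ) - (n0 : ℤ) := by
      intro n hn
      rw [Finset.mem_filter, Finset.mem_range] at hn
      refine dig_surj r d _ ?_
      have h1 : ((2 * r + 1 : ℕ) : ℤ) ^ d = 2 * (X : ℤ) + 1 := by exact_mod_cast hX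
      rw [h1]
      have h2 : |(n : ℤ) - (n0 : ℤ)| ≤ X := by
        rw [abs_le]
        constructor <;> omega
      linarith
    choose! y hy1 hy2 using hy
    refine Finset.card_le_card_of_injOn y ?_ ?_
    · intro n hn
      have hn' := hn
      rw [Finset.mem_coe, Finset.mem_filter] at hn'
      refine Finset.mem_coe.2 (boh_mem (hy1 n hn) fun g hg => ?_)
      rw [hy2 n hn]
      have h1 : (g * (n : ZMod R)).val * Q / R = (g * (n0 : ZMod R)).val * Q / R :=
        congrFun hn'.2 ⟨g, hg⟩
      have h2 := boh_close R Q e _ _ hR h h1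
      refine le_trans ?_ h2
      refine ZMod.natAbs_min_of_le_div_two R _ _ ?_ (ZMod.natAbs_valMinAbs_le _)
      rw [ZMod.coe_valMinAbs]
      push_cast
      rw [ZMod.natCast_zmod_val, ZMod.natCast_zmod_val]
      ring
    · intro n hn n' hn' hnn
      have h1 := hy2 n hn
      have h2 := hy2 n' hn'
      rw [hnn, h2] at h1
      omega
  have hmain := Finset.card_le_mul_card_image (f := φ) (Finset.range (X + 1))
    (KB (2 * r + 1) d r R G e).card hfib
  rw [Finset.card_range] at hmain
  have h3 : (KB (2 * r + 1) d r R G e).card * ((Finset.range (X + 1)).image φ).card ≤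
      (KB (2 * r + 1) d r R G e).card * Q ^ G.card := Nat.mul_le_mul_left _ hcard
  rw [hX, mul_comm (Q ^ G.card)]
  omega

end Pool.H53.BT
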