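import Pool.Agent.H53.BT.Defs

set_option autoImplicit false

/-!
Row CMP: comparison of a discretised frequency with a frequency in ZMod N.

Let b = (g*n).valMinAbs, so g0*n = R*a + b for an integer a, where g0 = round(gamma.val*q*R/N), |b| <= e.
(gamma*(q*n)).val = gamma.val*q*n - N*c for an integer c. Hence
(gamma*(q n)).val / N = gamma.val*q*n/N - c, gamma.val*q/N = (g0 + eta)/R with |eta| <= 1/2, so
gamma.val*q*n/N = a + b/R + n*eta/R. The distance to the integer a - c is at most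
e/R + |n|/(2R) <= eps/2 + eps/2. Finally |x - round x| <= |x - z| for every integer z (`round_le`).
-/

namespace Pool.H53.BT

theorem cmp_main (N q R e : ℕ) (hN : 0 < N) (hR : 0 < R) (γ : ZMod N) (ε : ℝ)
    (n : ℤ) (he : 2 * (e : ℝ) ≤ ε * R) (hn : (|n| : ℝ) ≤ ε * R)
    (hg : (((((round ((γ.val : ℝ) * q * R / N) : ℤ) : ZMod R)) * ((n : ℤ) : ZMod R)).valMinAbs).natAbs
      ≤ e) :
    |((γ * (((q : ℤ) * n : ℤ) : ZMod N)).val : ℝ) / (N : ℝ)
      - ((round (((γ * (((q : ℤ) * n : ℤ) : ZMod N)).val : ℝ) / (N : ℝ)) : ℤ) : ℝ)| ≤ ε := by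
  have hNZ : NeZero N := ⟨by omega⟩
  have hRZ : NeZero R := ⟨by omega⟩
  have hN' : (0 : ℝ) < N := by exact_mod_cast hN
  have hR' : (0 : ℝ) < R := by exact_mod_cast hR
  set g0 : ℤ := round ((γ.val : ℝ) * q * R / N) with hg0
  set b : ℤ := ((g0 : ZMod R) * ((n : ℤ) : ZMod R)).valMinAbs with hb
  set x : ZMod N := γ * (((q : ℤ) * n : ℤ) : ZMod N) with hx
  have hbe : |(b : ℝ)| ≤ e := by
    have h1 : ((b.natAbs : ℕ) : ℝ) ≤ e := by exact_mod_cast hg
    rwa [Nat.cast_natAbs, Int.cast_abs] at h1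
  obtain ⟨a, ha⟩ : ∃ a : ℤ, g0 * n - b = R * a := by
    have h1 : ((b : ℤ) : ZMod R) = ((g0 * n : ℤ) : ZMod R) := by
      rw [hb, ZMod.coe_valMinAbs]
      push_cast
      rfl
    exact (ZMod.intCast_eq_intCast_iff_dvd_sub _ _ _).1 h1
  obtain ⟨c, hc⟩ : ∃ c : ℤ, (γ.val : ℤ) * (q * n) - x.val = N * c := by
    have h1 : (((x.val : ℕ) : ℤ) : ZMod N) = (((γ.val : ℤ) * (q * n) : ℤ) : ZMod N) := by
      rw [Int.cast_natCast, ZMod.natCast_val, ZMod.cast_id, hx]
      push_cast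
      rw [ZMod.natCast_val, ZMod.cast_id]
    exact (ZMod.intCast_eq_intCast_iff_dvd_sub _ _ _).1 h1
  have ha' : (g0 : ℝ) * n - b = R * a := by exact_mod_cast ha
  have hc' : (γ.val : ℝ) * (q * n) - x.val = N * c := by exact_mod_cast hc
  set η : ℝ := (γ.val : ℝ) * q * R / N - g0 with hη
  have hη2 : |η| ≤ 1 / 2 := by
    rw [hη, hg0]
    exact abs_sub_round _
  have hgq : (γ.val : ℝ) * q / N = (g0 + η) / R := by
    rw [hη]
    field_simp
    ring
  have hval : (x.val : ℝ) / N = ((a - c : ℤ) : ℝ) + (b / R + η * n / R) := by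
    have h1 : (x.val : ℝ) / N = (γ.val : ℝ) * q / N * n - c := by
      rw [eq_sub_iff_add_eq]
      field_simp
      linear_combination -hc'
    rw [h1, hgq]
    push_cast
    field_simp
    linear_combination ha'
  have hbd : |(b : ℝ) / R + η * n / R| ≤ ε := by
    have h1 : |(b : ℝ) / R| ≤ ε / 2 := by
      rw [abs_div, abs_of_pos hR', div_le_iff₀ hR']
      linarith
    have h2 : |η * n / R| ≤ ε / 2 := by
      rw [abs_div, abs_of_pos hR', div_le_iff₀ hR', abs_mul]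
      have h3 : |η| * |(n : ℝ)| ≤ 1 / 2 * |(n : ℝ)| := mul_le_mul_of_nonneg_right hη2 (abs_nonneg _)
      have h4 : |(n : ℝ)| ≤ ε * R := by exact_mod_cast hn
      linarith
    calc |(b : ℝ) / R + η * n / R| ≤ |(b : ℝ) / R| + |η * n / R| := abs_add_le _ _
      _ ≤ ε := by linarith
  refine (round_le _ (a - c)).trans ?_
  rw [hval]
  simpa using hbd

end Pool.H53.BT
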