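import Mathlib

set_option autoImplicit false

/-!
Row NLO: real inequalities with logarithms. M = 4kh+1.

`nlo_up`: N <= 2 q M^d, card >= (2h+1)^d/(2*4^d) * (q/(8k)), M <= 2k(2h+1): N/card <= 32k (8k)^d, and
log(32k) + d log(8k) <= 2 d log(32k).
`nlo_low`: card <= (2h+1)^d (5/4) q [from (2J+1) with 8kJ <= q, q >= 1], N >= q M^d,
M/(2h+1) >= 5/3: N/card >= (4/5)(5/3)^d; log(5/3) >= 2/5, log(4/5) >= -1/4
(`Real.one_sub_inv_le_log_of_pos`), so L >= (2/5)d - 1/4 >= d/4.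
`nlo_log`: 2 log(32k) <= 64k, 64k*(h+1)^16 <= 64k*2^16*h^16 <= h^32.
`nlo_big`: take logarithms: log Q <= 2 log(2+1/eps) since Q <= 1+2/eps <= (2+1/eps)^2, so
log(Q^n) <= 2 X with X = n*log(2+1/eps) < (d/16) log h;
(d/2) log M >= (d/2) log h; s = d/2 <= d/2; needed: log 2 + d log 2 + (d/8) log h < (d/2) log h, true since
log h >= 4 log 2 and d > 2.
`nlo_card`: n log 2 <= X < (d/16) log h <= (d/16) h, log 2 >= 1/2.
`nlo_eps`: log(1/eps) <= log(2+1/eps) <= X (n >= 1) <= d log M so 1/eps <= M^d.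
-/

namespace Pool.H53.BT

theorem nlo_up (k h d q J c N : ℕ) (hk : 1 ≤ k) (hd : 1 ≤ d) (hq : 1 ≤ q)
    (hN : N < (q + 1) * (4 * k * h + 1) ^ d) (hJ : q < 8 * k * (J + 1))
    (hN0 : 0 < N)
    (hc : (2 * h + 1) ^ d ≤ 2 * 4 ^ d * c) :
    Real.log ((N : ℝ) / ((c * (2 * J + 1) : ℕ) : ℝ)) ≤ 2 * Real.log (32 * k) * d := by
  have hc0 : 0 < c := by
    rcases Nat.eq_zero_or_pos c with h0 | h0
    · rw [h0, mul_zero] at hc
      have : 0 < (2 * h + 1) ^ d := by positivity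
      omega
    · exact h0
  have h1 : N ≤ (32 * k) ^ (2 * d) * (c * (2 * J + 1)) := by
    calc N ≤ (q + 1) * (4 * k * h + 1) ^ d := hN.le
      _ ≤ (8 * k * (2 * J + 1)) * (2 * k * (2 * h + 1)) ^ d := by
          apply Nat.mul_le_mul
          · have : 8 * k * (J + 1) ≤ 8 * k * (2 * J + 1) := Nat.mul_le_mul_left _ (by omega)
            omega
          · apply Nat.pow_le_pow_left
            nlinarith
      _ = (8 * k * (2 * J + 1)) * ((2 * k) ^ d * (2 * h + 1) ^ d) := by rw [mul_pow]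
      _ ≤ (8 * k * (2 * J + 1)) * ((2 * k) ^ d * (2 * 4 ^ d * c)) :=
          Nat.mul_le_mul_left _ (Nat.mul_le_mul_left _ hc)
      _ = (16 * k) * (8 * k) ^ d * (c * (2 * J + 1)) := by
          rw [show (8 * k) ^ d = (2 * k) ^ d * 4 ^ d by rw [← mul_pow]; ring_nf]
          ring
      _ ≤ (32 * k) ^ (2 * d) * (c * (2 * J + 1)) := by
          apply Nat.mul_le_mul_right
          calc (16 * k) * (8 * k) ^ d ≤ (32 * k) * (32 * k) ^ d := by
                apply Nat.mul_le_mul (by omega)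
                exact Nat.pow_le_pow_left (by omega) _
            _ = (32 * k) ^ (d + 1) := by rw [pow_succ, mul_comm]
            _ ≤ (32 * k) ^ (2 * d) := Nat.pow_le_pow_right (by omega) (by omega)
  have hpos : (0 : ℝ) < ((c * (2 * J + 1) : ℕ) : ℝ) := by
    have : 0 < c * (2 * J + 1) := by positivity
    exact_mod_cast this
  have h2 : (N : ℝ) / ((c * (2 * J + 1) : ℕ) : ℝ) ≤ (32 * (k : ℝ)) ^ (2 * d) := by
    rw [div_le_iff₀ hpos]
    exact_mod_cast h1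
  have hN' : (0 : ℝ) < N := by exact_mod_cast hN0
  refine (Real.log_le_log (div_pos hN' hpos) h2).trans (le_of_eq ?_)
  rw [Real.log_pow]
  push_cast
  ring

theorem nlo_low (k h d q J c N : ℕ) (hk : 1 ≤ k) (hh : 1 ≤ h) (hd : 2 ≤ d) (hq : 1 ≤ q)
    (hN : q * (4 * k * h + 1) ^ d ≤ N) (hJ : 8 * k * J ≤ q)
    (hc0 : 0 < c) (hc : c ≤ (2 * h + 1) ^ d) :
    (d : ℝ) / 4 ≤ Real.log ((N : ℝ) / ((c * (2 * J + 1) : ℕ) : ℝ)) := by
  have hpos : (0 : ℝ) < ((c * (2 * J + 1) : ℕ) : ℝ) := by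
    have : 0 < c * (2 * J + 1) := by positivity
    exact_mod_cast this
  have hkR : (1 : ℝ) ≤ k := by exact_mod_cast hk
  have hhR : (1 : ℝ) ≤ h := by exact_mod_cast hh
  have hqR : (1 : ℝ) ≤ q := by exact_mod_cast hq
  have hJR : (2 * (J : ℝ) + 1) ≤ 5 / 4 * q := by
    have h1 : 8 * J ≤ q := le_trans (by nlinarith) hJ
    have h2 : 8 * (J : ℝ) ≤ q := by exact_mod_cast h1
    linarith
  have hcR : (c : ℝ) ≤ (2 * (h : ℝ) + 1) ^ d := by exact_mod_cast hc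
  have hM : 5 / 3 * (2 * (h : ℝ) + 1) ≤ 4 * k * h + 1 := by
    have : (h : ℝ) ≤ k * h := by nlinarith
    linarith
  have hNR : (q : ℝ) * (4 * k * h + 1) ^ d ≤ N := by exact_mod_cast hN
  have h2 : (4 / 5 : ℝ) * (5 / 3) ^ d ≤ (N : ℝ) / ((c * (2 * J + 1) : ℕ) : ℝ) := by
    rw [le_div_iff₀ hpos]
    push_cast
    calc (4 / 5 : ℝ) * (5 / 3) ^ d * (c * (2 * J + 1))
        ≤ (4 / 5 : ℝ) * (5 / 3) ^ d * ((2 * (h : ℝ) + 1) ^ d * (5 / 4 * q)) := by
          apply mul_le_mul_of_nonneg_left _ (by positivity)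
          apply mul_le_mul hcR hJR (by positivity) (by positivity)
      _ = q * (5 / 3 * (2 * (h : ℝ) + 1)) ^ d := by rw [mul_pow]; ring
      _ ≤ q * (4 * k * h + 1) ^ d := by
          apply mul_le_mul_of_nonneg_left _ (by positivity)
          exact pow_le_pow_left₀ (by positivity) hM d
      _ ≤ N := hNR
  have h3 : (2 / 5 : ℝ) ≤ Real.log (5 / 3) := by
    have := Real.one_sub_inv_le_log_of_pos (show (0 : ℝ) < 5 / 3 by norm_num)
    norm_num at this ⊢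
    linarith
  have h4 : (-(1 / 4) : ℝ) ≤ Real.log (4 / 5) := by
    have := Real.one_sub_inv_le_log_of_pos (show (0 : ℝ) < 4 / 5 by norm_num)
    norm_num at this ⊢
    linarith
  refine le_trans ?_ (Real.log_le_log (by positivity) h2)
  rw [Real.log_mul (by norm_num) (by positivity), Real.log_pow]
  have hdR : (2 : ℝ) ≤ d := by exact_mod_cast hd
  nlinarith

theorem nlo_log (k h d : ℕ) (hk : 1 ≤ k) (hh : 16 * k ≤ h) (hd' : d < (h + 1) ^ 16) (L : ℝ)
    (hL0 : 0 < L) (hL : L ≤ 2 * Real.log (32 * k) * d) : Real.log L ≤ 32 * Real.log h := by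
  have hkR : (1 : ℝ) ≤ k := by exact_mod_cast hk
  have hhR : 16 * (k : ℝ) ≤ h := by exact_mod_cast hh
  have hh16 : (16 : ℝ) ≤ h := by linarith
  have h1 : Real.log (32 * k) ≤ 32 * k := Real.log_le_self (by positivity)
  have h2 : (d : ℝ) ≤ (2 * (h : ℝ)) ^ 16 := by
    have h3 : (d : ℝ) < ((h : ℝ) + 1) ^ 16 := by exact_mod_cast hd'
    refine h3.le.trans (pow_le_pow_left₀ (by positivity) (by linarith) 16)
  have h5 : L ≤ (h : ℝ) ^ 32 := by
    calc L ≤ 2 * Real.log (32 * k) * d := hL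
      _ ≤ (4 * (h : ℝ)) * (2 * (h : ℝ)) ^ 16 := by
          apply mul_le_mul _ h2 (by positivity) (by positivity)
          linarith
      _ = 2 ^ 18 * (h : ℝ) ^ 17 := by ring
      _ ≤ (h : ℝ) ^ 15 * (h : ℝ) ^ 17 := by
          apply mul_le_mul_of_nonneg_right _ (by positivity)
          calc (2 : ℝ) ^ 18 ≤ 16 ^ 15 := by norm_num
            _ ≤ (h : ℝ) ^ 15 := pow_le_pow_left₀ (by norm_num) hh16 15
      _ = (h : ℝ) ^ 32 := by rw [← pow_add]
  refine (Real.log_le_log hL0 h5).trans (le_of_eq ?_)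
  rw [Real.log_pow]
  norm_num

theorem nlo_big (k h d n K Q : ℕ) (ε : ℝ) (hk : 1 ≤ k) (hh : 16 * k ≤ h) (hd : h ^ 16 ≤ d)
    (hε : 0 < ε) (hQ1 : 1 ≤ Q) (hQ : (Q : ℝ) ≤ 1 + 2 / ε)
    (hX : (n : ℝ) * Real.log (2 + 1 / ε) < (d : ℝ) / 16 * Real.log h)
    (hK : (4 * k * h + 1) ^ d ≤ 2 * (Q ^ n * K)) :
    2 ^ d * (4 * k * h + 1) ^ (d / 2) < K := by
  by_contra hcon
  push Not at hcon
  have hh16 : 16 ≤ h := by omega
  have hd2 : 2 ≤ d := by
    have : h ^ 1 ≤ h ^ 16 := Nat.pow_le_pow_right (by omega) (by norm_num)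
    rw [pow_one] at this
    omega
  have h1 : (4 * k * h + 1) ^ d ≤ 2 * (Q ^ n * (2 ^ d * (4 * k * h + 1) ^ (d / 2))) :=
    hK.trans (Nat.mul_le_mul_left _ (Nat.mul_le_mul_left _ hcon))
  have h2 : ((4 * k * h + 1 : ℕ) : ℝ) ^ d ≤
      2 * ((Q : ℝ) ^ n * (2 ^ d * ((4 * k * h + 1 : ℕ) : ℝ) ^ (d / 2))) := by exact_mod_cast h1
  obtain ⟨M, hM⟩ : ∃ M : ℝ, M = ((4 * k * h + 1 : ℕ) : ℝ) := ⟨_, rfl⟩
  rw [← hM] at h2
  have hMh : (h : ℝ) ≤ M := by
    rw [hM]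
    have : h ≤ 4 * k * h + 1 := by nlinarith
    exact_mod_cast this
  have hhR : (16 : ℝ) ≤ h := by exact_mod_cast hh16
  have hMpos : 0 < M := by linarith
  have hQpos : (0 : ℝ) < Q := by exact_mod_cast hQ1
  have h3 := Real.log_le_log (pow_pos hMpos d) h2
  rw [Real.log_pow, Real.log_mul (by norm_num) (by positivity), Real.log_mul (by positivity) (by positivity),
    Real.log_pow, Real.log_mul (by positivity) (by positivity), Real.log_pow, Real.log_pow] at h3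
  have hlQ : Real.log Q ≤ 2 * Real.log (2 + 1 / ε) := by
    have h4 : (Q : ℝ) ≤ (2 + 1 / ε) ^ 2 := by
      refine hQ.trans ?_
      have : 0 < 1 / ε := by positivity
      have e : 2 / ε = 2 * (1 / ε) := by ring
      rw [e]
      nlinarith [sq_nonneg (1 / ε)]
    have := Real.log_le_log hQpos h4
    rw [Real.log_pow] at this
    exact_mod_cast this
  have hn0 : (0 : ℝ) ≤ n := Nat.cast_nonneg n
  have h5 : (n : ℝ) * Real.log Q ≤ (d : ℝ) / 8 * Real.log h := by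
    have := mul_le_mul_of_nonneg_left hlQ hn0
    linarith
  have hd2' : ((d / 2 : ℕ) : ℝ) ≤ (d : ℝ) / 2 := by
    have : 2 * (d / 2) ≤ d := Nat.mul_div_le d 2
    have h6 : 2 * ((d / 2 : ℕ) : ℝ) ≤ d := by exact_mod_cast this
    linarith
  have hlog2 : 0 < Real.log 2 := Real.log_pos (by norm_num)
  have hlh : 4 * Real.log 2 ≤ Real.log h := by
    have h6 : Real.log ((2 : ℝ) ^ 4) ≤ Real.log h := Real.log_le_log (by norm_num) (by linarith)
    rw [Real.log_pow] at h6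
    exact_mod_cast h6
  have hlM : Real.log h ≤ Real.log M := Real.log_le_log (by linarith) hMh
  have hlM0 : 0 ≤ Real.log M := by linarith
  have hdR : (2 : ℝ) ≤ d := by exact_mod_cast hd2
  have h7 : ((d / 2 : ℕ) : ℝ) * Real.log M ≤ (d : ℝ) / 2 * Real.log M :=
    mul_le_mul_of_nonneg_right hd2' hlM0
  have h8 : (d : ℝ) / 2 * Real.log M ≤ Real.log 2 + (d : ℝ) * Real.log 2 + (d : ℝ) / 8 * Real.log h := by
    linarith
  have h9 : (d : ℝ) / 2 * Real.log h ≤ (d : ℝ) / 2 * Real.log M :=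
    mul_le_mul_of_nonneg_left hlM (by positivity)
  have h10 : (d : ℝ) * (3 / 8) * Real.log h ≤ Real.log 2 + (d : ℝ) * Real.log 2 := by linarith
  have h11 : (d : ℝ) * (3 / 8) * (4 * Real.log 2) ≤ (d : ℝ) * (3 / 8) * Real.log h :=
    mul_le_mul_of_nonneg_left hlh (by positivity)
  have h12 : 0 ≤ ((d : ℝ) - 2) * Real.log 2 := mul_nonneg (by linarith) hlog2.le
  have hd3 : (16 : ℝ) ≤ d := by
    have : h ^ 1 ≤ h ^ 16 := Nat.pow_le_pow_right (by omega) (by norm_num)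
    rw [pow_one] at this
    have : 16 ≤ d := by omega
    exact_mod_cast this
  have h13 : 0 ≤ ((d : ℝ) - 16) * Real.log 2 := mul_nonneg (by linarith) hlog2.le
  nlinarith

theorem nlo_card (h d n : ℕ) (ε : ℝ) (hh : 1 ≤ h) (hε : 0 < ε)
    (hX : (n : ℝ) * Real.log (2 + 1 / ε) < (d : ℝ) / 16 * Real.log h) : n ≤ d * h := by
  have h1 : Real.log 2 ≤ Real.log (2 + 1 / ε) := by
    apply Real.log_le_log (by norm_num)
    have : 0 < 1 / ε := by positivity
    linarith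
  have h2 := Real.log_two_gt_d9
  have hn0 : (0 : ℝ) ≤ n := Nat.cast_nonneg n
  have h3 : (n : ℝ) * (1 / 2) ≤ (n : ℝ) * Real.log (2 + 1 / ε) :=
    mul_le_mul_of_nonneg_left (by linarith) hn0
  have h4 : Real.log h ≤ h := Real.log_le_self (Nat.cast_nonneg h)
  have hd0 : (0 : ℝ) ≤ d := Nat.cast_nonneg d
  have h5 : (d : ℝ) / 16 * Real.log h ≤ (d : ℝ) / 16 * h := mul_le_mul_of_nonneg_left h4 (by positivity)
  have h6 : (0 : ℝ) ≤ d * h := by positivity
  have h7 : (n : ℝ) ≤ d * h := by linarith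
  exact_mod_cast h7

theorem nlo_eps (k h d n : ℕ) (ε : ℝ) (hk : 1 ≤ k) (hh : 1 ≤ h) (hn : 1 ≤ n) (hε : 0 < ε)
    (hX : (n : ℝ) * Real.log (2 + 1 / ε) < (d : ℝ) / 16 * Real.log h) :
    1 / ε ≤ ((4 * k * h + 1 : ℕ) : ℝ) ^ d := by
  have he : 0 < 1 / ε := by positivity
  have hpos : 0 < 2 + 1 / ε := by linarith
  have hl0 : 0 ≤ Real.log (2 + 1 / ε) := Real.log_nonneg (by linarith)
  have hnR : (1 : ℝ) ≤ n := by exact_mod_cast hn
  have hhR : (1 : ℝ) ≤ h := by exact_mod_cast hh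
  have h1 : Real.log (2 + 1 / ε) ≤ (n : ℝ) * Real.log (2 + 1 / ε) := by nlinarith
  have hlh : 0 ≤ Real.log h := Real.log_nonneg hhR
  have hMh : (h : ℝ) ≤ ((4 * k * h + 1 : ℕ) : ℝ) := by
    have : h ≤ 4 * k * h + 1 := by nlinarith
    exact_mod_cast this
  have hlM : Real.log h ≤ Real.log ((4 * k * h + 1 : ℕ) : ℝ) := Real.log_le_log (by linarith) hMh
  have hd0 : (0 : ℝ) ≤ d := Nat.cast_nonneg d
  have h2 : (d : ℝ) / 16 * Real.log h ≤ (d : ℝ) * Real.log ((4 * k * h + 1 : ℕ) : ℝ) := by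
    have h3 : (d : ℝ) / 16 * Real.log h ≤ (d : ℝ) * Real.log h := by nlinarith [mul_nonneg hd0 hlh]
    exact h3.trans (mul_le_mul_of_nonneg_left hlM hd0)
  have h4 : Real.log (2 + 1 / ε) ≤ Real.log (((4 * k * h + 1 : ℕ) : ℝ) ^ d) := by
    rw [Real.log_pow]
    linarith
  have hMpos : (0 : ℝ) < ((4 * k * h + 1 : ℕ) : ℝ) ^ d := by positivity
  have h5 := (Real.log_le_log_iff hpos hMpos).1 h4
  linarith

end Pool.H53.BT
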