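import Mathlib

set_option autoImplicit false

/-!
Row NUM: natural number inequalities between the parameters.

`num_t`: with M = 4kh+1, S' = 64*M*h = 2*S, W = S'*d*h^2: (512 k h s0)^2 = 512^2 k^2 h^2 W
= 512^2*64*(4kh+1) k^2 h^5 d <= 512^2*320 k^3 h^6 d <= h^16 d <= d^2, using h >= 16k, k >= 1.
`num_big`: all is a power of two: d+1 <= 2^(16h) (as d < (h+1)^16 and h+1 <= 2^h), so
(d+1)^(2t T) <= 2^(32 h t T) <= 2^(d/8*T) [64 t h <= ... : from num_t with t = 2k s0: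
8*32*h*t = 512 k h s0 <= d]; R + 1 <= 8 M^(2d) <= 2^(3 + 2dM), exponent (m+1)(3+2dM) <= 2dh*5dM;
2*4^d = 2^(2d+1). Sum: 10 d^2 h M + 2d+1 + dT + dT/8 < dT + dT/2 <= dT + (s+1) T, T = 64 M h d,
(s+1) = d/2+1 >= (d+1)/2.
-/

namespace Pool.H53.BT

theorem num_t (k h d : ℕ) (hk : 1 ≤ k) (hh : 16 * k ≤ h) (hd : h ^ 16 ≤ d) :
    512 * k * h * Nat.sqrt (2 * (32 * (4 * k * h + 1) * h) * d * h ^ 2) ≤ d := by
  set s0 := Nat.sqrt (2 * (32 * (4 * k * h + 1) * h) * d * h ^ 2) with hs0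
  have h1 : s0 * s0 ≤ 2 * (32 * (4 * k * h + 1) * h) * d * h ^ 2 := Nat.sqrt_le _
  have hkh : 1 ≤ k * h := Nat.one_le_iff_ne_zero.2 (by
    have : 0 < k * h := Nat.mul_pos hk (by omega)
    omega)
  have h2 : 4 * k * h + 1 ≤ 5 * (k * h) := by
    have : 4 * k * h = 4 * (k * h) := by ring
    omega
  have h3 : (512 * k * h * s0) * (512 * k * h * s0) ≤ d * d := by
    calc (512 * k * h * s0) * (512 * k * h * s0) = 512 ^ 2 * k ^ 2 * h ^ 2 * (s0 * s0) := by ring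
      _ ≤ 512 ^ 2 * k ^ 2 * h ^ 2 * (2 * (32 * (4 * k * h + 1) * h) * d * h ^ 2) :=
          Nat.mul_le_mul_left _ h1
      _ ≤ 512 ^ 2 * k ^ 2 * h ^ 2 * (2 * (32 * (5 * (k * h)) * h) * d * h ^ 2) := by gcongr
      _ = (512 ^ 2 * 320 * k ^ 3) * h ^ 6 * d := by ring
      _ ≤ h ^ 10 * h ^ 6 * d := by
          apply Nat.mul_le_mul_right
          apply Nat.mul_le_mul_right
          calc 512 ^ 2 * 320 * k ^ 3 ≤ 16 ^ 10 * k ^ 3 := Nat.mul_le_mul_right _ (by norm_num)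
            _ ≤ 16 ^ 10 * k ^ 10 := Nat.mul_le_mul_left _ (Nat.pow_le_pow_right hk (by norm_num))
            _ = (16 * k) ^ 10 := by ring
            _ ≤ h ^ 10 := Nat.pow_le_pow_left hh 10
      _ = h ^ 16 * d := by ring
      _ ≤ d * d := Nat.mul_le_mul_right _ hd
  by_contra hc
  push Not at hc
  have h4 := Nat.mul_lt_mul'' hc hc
  omega

theorem num_big (k h d : ℕ) (hk : 1 ≤ k) (hh : 16 * k ≤ h) (hd : h ^ 16 ≤ d) (hd' : d < (h + 1) ^ 16) :
    2 * 4 ^ d * ((4 * (2 * (2 * k * h) + 1) ^ (2 * d) + 1) ^ (d * h + 1) *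
      (2 ^ d * (d + 1) ^ (2 * (2 * k * Nat.sqrt (2 * (32 * (4 * k * h + 1) * h) * d * h ^ 2))))
        ^ (2 * (32 * (4 * k * h + 1) * h) * d))
      < 2 ^ (d * (2 * (32 * (4 * k * h + 1) * h) * d)) *
        2 ^ ((d / 2 + 1) * (2 * (32 * (4 * k * h + 1) * h) * d)) := by
  have ht := num_t k h d hk hh hd
  set s0 := Nat.sqrt (2 * (32 * (4 * k * h + 1) * h) * d * h ^ 2) with hs0
  have hM : 2 * (2 * k * h) + 1 = 4 * k * h + 1 := by ring
  rw [hM]
  set M := 4 * k * h + 1 with hMd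
  have hh1 : 1 ≤ h := by omega
  have hd1 : 1 ≤ d := (Nat.one_le_pow _ _ hh1).trans hd
  have hM1 : 1 ≤ M := by omega
  set T := 2 * (32 * M * h) * d with hT
  have e1 : (4 * M ^ (2 * d) + 1) ^ (d * h + 1) ≤ 2 ^ ((3 + 2 * d * M) * (d * h + 1)) := by
    rw [pow_mul 2 (3 + 2 * d * M) (d * h + 1)]
    apply Nat.pow_le_pow_left
    have h1 : M ^ (2 * d) ≤ 2 ^ (2 * d * M) := by
      calc M ^ (2 * d) ≤ (2 ^ M) ^ (2 * d) := Nat.pow_le_pow_left (Nat.lt_two_pow_self).le _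
        _ = 2 ^ (2 * d * M) := by rw [← pow_mul, mul_comm M]
    have h2 : 1 ≤ 2 ^ (2 * d * M) := Nat.one_le_two_pow
    calc 4 * M ^ (2 * d) + 1 ≤ 8 * 2 ^ (2 * d * M) := by omega
      _ = 2 ^ (3 + 2 * d * M) := by rw [pow_add]; norm_num
  have e2 : (d + 1) ^ (2 * (2 * k * s0)) ≤ 2 ^ (64 * k * h * s0) := by
    have h1 : d + 1 ≤ 2 ^ (16 * h) := by
      calc d + 1 ≤ (h + 1) ^ 16 := hd'
        _ ≤ (2 ^ h) ^ 16 := Nat.pow_le_pow_left (Nat.lt_two_pow_self) 16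
        _ = 2 ^ (16 * h) := by rw [← pow_mul, mul_comm h]
    calc (d + 1) ^ (2 * (2 * k * s0)) ≤ (2 ^ (16 * h)) ^ (2 * (2 * k * s0)) :=
          Nat.pow_le_pow_left h1 _
      _ = 2 ^ (64 * k * h * s0) := by
          rw [← pow_mul]
          congr 1
          ring
  have e3 : (2 ^ d * (d + 1) ^ (2 * (2 * k * s0))) ^ T ≤ 2 ^ ((d + 64 * k * h * s0) * T) := by
    rw [pow_mul 2 (d + 64 * k * h * s0) T]
    apply Nat.pow_le_pow_left
    rw [pow_add]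
    exact Nat.mul_le_mul_left _ e2
  have e4 : 2 * 4 ^ d = 2 ^ (2 * d + 1) := by
    rw [pow_succ, pow_mul]
    norm_num
    ring
  rw [e4, ← pow_add]
  have e5 : 2 ^ (2 * d + 1) * ((4 * M ^ (2 * d) + 1) ^ (d * h + 1) *
      (2 ^ d * (d + 1) ^ (2 * (2 * k * s0))) ^ T) ≤
      2 ^ (2 * d + 1 + ((3 + 2 * d * M) * (d * h + 1) + (d + 64 * k * h * s0) * T)) := by
    rw [pow_add 2 (2 * d + 1), pow_add 2 ((3 + 2 * d * M) * (d * h + 1))]
    exact Nat.mul_le_mul_left _ (Nat.mul_le_mul e1 e3)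
  refine e5.trans_lt ?_
  apply Nat.pow_lt_pow_right (by norm_num)
  have f1 : 8 * (64 * k * h * s0) * T ≤ d * T := by
    apply Nat.mul_le_mul_right
    calc 8 * (64 * k * h * s0) = 512 * k * h * s0 := by ring
      _ ≤ d := ht
  have f2 : d * T ≤ 2 * ((d / 2 + 1) * T) := by
    calc d * T ≤ (2 * (d / 2 + 1)) * T := Nat.mul_le_mul_right T (by omega)
      _ = 2 * ((d / 2 + 1) * T) := by ring
  -- the main inequality
  set X := d * d * (h * M) with hX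
  have hdX : d ≤ X := by
    calc d = d * 1 * (1 * 1) := by ring
      _ ≤ d * d * (h * M) := by gcongr
  have hdhX : d * h ≤ X := by
    calc d * h = d * 1 * (h * 1) := by ring
      _ ≤ d * d * (h * M) := by gcongr
  have hdMX : d * M ≤ X := by
    calc d * M = d * 1 * (1 * M) := by ring
      _ ≤ d * d * (h * M) := by gcongr
  have hX1 : 1 ≤ X := hd1.trans hdX
  have g1 : (3 + 2 * d * M) * (d * h + 1) = 3 * (d * h) + 3 + 2 * X + 2 * (d * M) := by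
    rw [hX]
    ring
  have g2 : d * T = 64 * X := by
    rw [hX, hT]
    ring
  have g3 : (d + 64 * k * h * s0) * T = d * T + 64 * k * h * s0 * T := by ring
  have g4 : 8 * (64 * k * h * s0) * T = 8 * (64 * k * h * s0 * T) := by ring
  rw [g1, g3]
  rw [g4] at f1
  rw [g2] at f1 f2 ⊢
  omega

theorem num_root (d : ℕ) : ∃ h : ℕ, h ^ 16 ≤ d ∧ d < (h + 1) ^ 16 := by
  classical
  have hex : ∃ h : ℕ, d < (h + 1) ^ 16 := ⟨d, by
    calc d < d + 1 := Nat.lt_succ_self d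
      _ = (d + 1) ^ 1 := (pow_one _).symm
      _ ≤ (d + 1) ^ 16 := Nat.pow_le_pow_right (by omega) (by norm_num)⟩
  refine ⟨Nat.find hex, ?_, Nat.find_spec hex⟩
  rcases Nat.eq_zero_or_pos (Nat.find hex) with h0 | h0
  · rw [h0]
    simp
  · have := Nat.find_min hex (m := Nat.find hex - 1) (by omega)
    rw [Nat.sub_add_cancel h0] at this
    exact not_lt.1 this

end Pool.H53.BT
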