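import Pool.Agent.H53.BT.DIG

set_option autoImplicit false

/-!
Row SET: the set A in ZMod N.

`set_inj`: uniqueness of the representation q*dg y + j. If the two are equal mod N, the integer
q*dg M d u + (i - j), u = y - z, |u i| <= 2r = M-1, |i-j| <= 2a < q, has absolute value
<= q(M^d - 1) + 2a < q M^d <= N (`dig_abs`), and is divisible by N, so it is 0; then q | i - j,
so i = j and dg u = 0, so u = 0 (`dig_zero`).
`SA`: the set {q*dg y + j : y in Y, |j| <= J}.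
`set_card`: image of an injective map (`set_inj` with r := 2kh, a := 2kJ; note h <= 2kh, J <= 2kJ).
`set_diff`: if q*dg y = sum a_i - sum b_i with a_i, b_i in SA, write a_i = q*dg y_i + j_i, b_i = q*dg z_i + l_i;
the right side is q*dg(sum y_i - sum z_i) + (sum j_i - sum l_i), entries bounded by 2kh and 2kJ; by
`set_inj` y = sum y_i - sum z_i. Then |ip v y| <= sum |ip v y_i| + sum |ip v z_i| <= 2k s0, where
(ip v y_i)^2 <= W gives |ip v y_i| <= Nat.sqrt W.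
-/

namespace Pool.H53.BT

theorem set_inj (N q d r a : ℕ) (hN : q * (2 * r + 1) ^ d ≤ N) (ha : 2 * a < q)
    (y z : Fin d → ℤ) (i j : ℤ) (hy : ∀ l, |y l| ≤ (r : ℤ)) (hz : ∀ l, |z l| ≤ (r : ℤ))
    (hi : |i| ≤ (a : ℤ)) (hj : |j| ≤ (a : ℤ))
    (h : (((q : ℤ) * dg (2 * r + 1) d y + i : ℤ) : ZMod N)
      = (((q : ℤ) * dg (2 * r + 1) d z + j : ℤ) : ZMod N)) : y = z ∧ i = j := by
  have hdvd : (N : ℤ) ∣ ((q : ℤ) * dg (2 * r + 1) d y + i) - ((q : ℤ) * dg (2 * r + 1) d z + j) := by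
    have h1 := (ZMod.intCast_eq_intCast_iff_dvd_sub _ _ N).1 h.symm
    exact h1
  have hu : ∀ l, |(y - z) l| ≤ ((2 * r + 1 : ℕ) : ℤ) - 1 := by
    intro l
    rw [Pi.sub_apply]
    have h1 := abs_sub (y l) (z l)
    have h2 := hy l
    have h3 := hz l
    push_cast
    linarith
  have hda := dig_abs (2 * r + 1) d (by omega) (y - z) hu
  have hq : (0 : ℤ) < q := by
    have : 0 < q := by omega
    exact_mod_cast this
  have hij : |i - j| ≤ 2 * (a : ℤ) := (abs_sub i j).trans (by linarith)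
  have ha' : 2 * (a : ℤ) < q := by exact_mod_cast ha
  have hN' : (q : ℤ) * ((2 * r + 1 : ℕ) : ℤ) ^ d ≤ N := by exact_mod_cast hN
  have e : ((q : ℤ) * dg (2 * r + 1) d y + i) - ((q : ℤ) * dg (2 * r + 1) d z + j) =
      (q : ℤ) * dg (2 * r + 1) d (y - z) + (i - j) := by
    rw [dg_sub]
    ring
  rw [e] at hdvd
  have hlt : |(q : ℤ) * dg (2 * r + 1) d (y - z) + (i - j)| < (N : ℤ) := by
    have h1 := abs_add_le ((q : ℤ) * dg (2 * r + 1) d (y - z)) (i - j)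
    rw [abs_mul, abs_of_pos hq] at h1
    have h2 := mul_le_mul_of_nonneg_left hda hq.le
    linarith
  have h0 := Int.eq_zero_of_abs_lt_dvd hdvd hlt
  have hqd : (q : ℤ) ∣ i - j := by
    refine ⟨-dg (2 * r + 1) d (y - z), ?_⟩
    linear_combination h0
  have hij0 := Int.eq_zero_of_abs_lt_dvd hqd (by linarith)
  rw [hij0, add_zero] at h0
  have hdg : dg (2 * r + 1) d (y - z) = 0 := (mul_eq_zero.1 h0).resolve_left hq.ne'
  have hyz := dig_zero (2 * r + 1) d (by omega) (y - z) hu hdg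
  exact ⟨sub_eq_zero.1 hyz, by linarith⟩

/-- The set `{q * dg y + j : y ∈ Y, |j| ≤ J}` in `ZMod N`. -/
noncomputable def SA (N q M d J : ℕ) (Y : Finset (Fin d → ℤ)) : Finset (ZMod N) :=
  (Y ×ˢ Finset.Icc (-(J : ℤ)) (J : ℤ)).image fun p => (((q : ℤ) * dg M d p.1 + p.2 : ℤ) : ZMod N)

theorem set_card (N q d k h J : ℕ) (hk : 1 ≤ k) (hN : q * (2 * (2 * k * h) + 1) ^ d ≤ N)
    (hJ : 2 * (2 * k * J) < q) (Y : Finset (Fin d → ℤ)) (hY : Y ⊆ box d h) :
    (SA N q (2 * (2 * k * h) + 1) d J Y).card = Y.card * (2 * J + 1) := by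
  unfold SA
  rw [Finset.card_image_of_injOn, Finset.card_product, Int.card_Icc]
  · congr 1
    omega
  · rintro ⟨y, i⟩ hyi ⟨z, j⟩ hzj hEq
    rw [Finset.mem_coe, Finset.mem_product, Finset.mem_Icc] at hyi hzj
    have hh : (h : ℤ) ≤ ((2 * k * h : ℕ) : ℤ) := by
      have : h ≤ 2 * k * h := by nlinarith
      exact_mod_cast this
    have hJ' : (J : ℤ) ≤ ((2 * k * J : ℕ) : ℤ) := by
      have : J ≤ 2 * k * J := by nlinarith
      exact_mod_cast this
    have h1 := set_inj N q d (2 * k * h) (2 * k * J) hN hJ y z i j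
      (fun l => (mem_box.1 (hY hyi.1) l).trans hh) (fun l => (mem_box.1 (hY hzj.1) l).trans hh)
      ((abs_le.2 hyi.2).trans hJ') ((abs_le.2 hzj.2).trans hJ') hEq
    rw [h1.1, h1.2]

theorem set_sqrt {t : ℤ} {W : ℕ} (h : t ^ 2 ≤ (W : ℤ)) : |t| ≤ (Nat.sqrt W : ℤ) := by
  have h1 : t.natAbs ≤ Nat.sqrt W := by
    rw [Nat.le_sqrt]
    have h2 : ((t.natAbs * t.natAbs : ℕ) : ℤ) ≤ (W : ℤ) := by
      rw [Nat.cast_mul, Int.natCast_natAbs, abs_mul_abs_self]
      linarith [sq t]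
    exact_mod_cast h2
  rw [Int.abs_eq_natAbs]
  exact_mod_cast h1

theorem set_abs_sum {k : ℕ} (f : Fin k → ℤ) (c : ℤ) (hf : ∀ i, |f i| ≤ c) :
    |∑ i, f i| ≤ k * c := by
  refine (Finset.abs_sum_le_sum_abs _ _).trans ?_
  refine (Finset.sum_le_sum fun i _ => hf i).trans (le_of_eq ?_)
  simp

theorem set_diff (N q d k h J W T : ℕ) (hk : 1 ≤ k) (hN : q * (2 * (2 * k * h) + 1) ^ d ≤ N)
    (hJ : 2 * (2 * k * J) < q) (v : Fin T → Fin d → Bool) (y : Fin d → ℤ)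
    (hy : y ∈ box d (2 * k * h)) (a b : Fin k → ZMod N)
    (ha : ∀ i, a i ∈ SA N q (2 * (2 * k * h) + 1) d J (Yv d h W T v))
    (hb : ∀ i, b i ∈ SA N q (2 * (2 * k * h) + 1) d J (Yv d h W T v))
    (h : (((q : ℤ) * dg (2 * (2 * k * h) + 1) d y : ℤ) : ZMod N) = ∑ i, a i - ∑ i, b i) (j : Fin T) :
    |ip (v j) y| ≤ ((2 * k * Nat.sqrt W : ℕ) : ℤ) := by
  revert h
  intro heq
  have hmem : ∀ x ∈ SA N q (2 * (2 * k * h) + 1) d J (Yv d h W T v),
      ∃ (z : Fin d → ℤ) (l : ℤ), (∀ i, |z i| ≤ (h : ℤ)) ∧ (∀ j, (ip (v j) z) ^ 2 ≤ (W : ℤ)) ∧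
        |l| ≤ (J : ℤ) ∧ (((q : ℤ) * dg (2 * (2 * k * h) + 1) d z + l : ℤ) : ZMod N) = x := by
    intro x hx
    unfold SA at hx
    rw [Finset.mem_image] at hx
    obtain ⟨⟨z, l⟩, hp, hx⟩ := hx
    rw [Finset.mem_product, mem_Yv, Finset.mem_Icc] at hp
    exact ⟨z, l, hp.1.1, hp.1.2, abs_le.2 hp.2, hx⟩
  choose ya ja ha1 ha2 ha3 ha4 using fun i => hmem (a i) (ha i)
  choose yb jb hb1 hb2 hb3 hb4 using fun i => hmem (b i) (hb i)
  have hsum : (((q : ℤ) * dg (2 * (2 * k * h) + 1) d y + 0 : ℤ) : ZMod N) =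
      (((q : ℤ) * dg (2 * (2 * k * h) + 1) d (∑ i, ya i - ∑ i, yb i) +
        (∑ i, ja i - ∑ i, jb i) : ℤ) : ZMod N) := by
    rw [add_zero, heq]
    have e1 : ∑ i, a i = ((∑ i, ((q : ℤ) * dg (2 * (2 * k * h) + 1) d (ya i) + ja i) : ℤ) : ZMod N) := by
      rw [Int.cast_sum]
      exact Finset.sum_congr rfl fun i _ => (ha4 i).symm
    have e2 : ∑ i, b i = ((∑ i, ((q : ℤ) * dg (2 * (2 * k * h) + 1) d (yb i) + jb i) : ℤ) : ZMod N) := by
      rw [Int.cast_sum]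
      exact Finset.sum_congr rfl fun i _ => (hb4 i).symm
    rw [e1, e2, ← Int.cast_sub]
    congr 1
    rw [dg_sub, dg_sum, dg_sum, Finset.sum_add_distrib, Finset.sum_add_distrib, ← Finset.mul_sum,
      ← Finset.mul_sum]
    ring
  have h1 := set_inj N q d (2 * k * h) (2 * k * J) hN hJ y (∑ i, ya i - ∑ i, yb i) 0
    (∑ i, ja i - ∑ i, jb i) (mem_box.1 hy) ?_ (by rw [abs_zero]; positivity) ?_ hsum
  · rw [h1.1, ip_sub, ip_sum, ip_sum]
    refine (abs_sub _ _).trans ?_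
    have h2 := set_abs_sum (fun i => ip (v j) (ya i)) (Nat.sqrt W : ℤ) fun i => set_sqrt (ha2 i j)
    have h3 := set_abs_sum (fun i => ip (v j) (yb i)) (Nat.sqrt W : ℤ) fun i => set_sqrt (hb2 i j)
    push_cast
    linarith
  · intro l
    rw [Pi.sub_apply, Finset.sum_apply, Finset.sum_apply]
    refine (abs_sub _ _).trans ?_
    have h2 := set_abs_sum (fun i => ya i l) (h : ℤ) fun i => ha1 i l
    have h3 := set_abs_sum (fun i => yb i l) (h : ℤ) fun i => hb1 i l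
    push_cast
    linarith
  · refine (abs_sub _ _).trans ?_
    have h2 := set_abs_sum ja (J : ℤ) ha3
    have h3 := set_abs_sum jb (J : ℤ) hb3
    push_cast
    linarith

end Pool.H53.BT
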