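import Pool.Agent.H53.BT.UNI
import Pool.Agent.H53.BT.SET
import Pool.Agent.H53.BT.BOH
import Pool.Agent.H53.BT.CMP
import Pool.Agent.H53.BT.NUM
import Pool.Agent.H53.BT.NLO

set_option autoImplicit false

/-!
Assembly for `MP_169871_nt.BohrTradeoff`.
-/

namespace Pool.H53.BT

theorem fin_mem_KB {M d r R : ℕ} {G : Finset (ZMod R)} {e : ℕ} {y : Fin d → ℤ}
    (hy : y ∈ KB M d r R G e) : y ∈ box d r ∧
      ∀ g ∈ G, ((g * ((dg M d y : ℤ) : ZMod R)).valMinAbs).natAbs ≤ e := by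
  unfold KB at hy
  exact Finset.mem_filter.1 hy

theorem fin_a1 (k h : ℕ) (h1 : 1 ≤ h) : 1 ≤ 32 * (4 * k * h + 1) * h := by
  have h2 : 1 ≤ 32 * (4 * k * h + 1) := by omega
  exact Nat.mul_le_mul h2 h1

theorem fin_a2 (k h : ℕ) (hk : 1 ≤ k) (hh : 16 * k ≤ h) : 4 * k * h + 1 ≤ h ^ 16 := by
  have h8 : h ^ 2 ≤ h ^ 16 := Nat.pow_le_pow_right (by omega) (by norm_num)
  refine le_trans ?_ h8
  clear h8
  nlinarith

theorem fin_a3 (x y ε R : ℝ) (h5 : 2 * x ≤ y) (h7 : R = 4 * (y * y)) (h8 : 1 ≤ ε * y)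
    (h9 : 0 < y) (hx : 0 ≤ x) : x ≤ ε * R := by
  rw [h7]
  nlinarith

theorem fin_a4 (D hup l d : ℝ) (hD : 1 ≤ D) (h1 : hup ≤ 2 * D * d) (h2 : d ≤ 5 * l) :
    hup ≤ 10 * D * l := by
  nlinarith

theorem fin_a5 (D N : ℝ) (hc10 : 1 / (1024 * D) ≤ 1 / 10) (hN : 0 ≤ N) :
    10 * (1 / (1024 * D) * N) ≤ N := by
  nlinarith

theorem fin_a6 (d l : ℝ) (h1 : d ≤ 5 * l) (h2 : 16 ≤ l) : d ≤ l ^ 2 := by
  nlinarith

theorem fin_core (k h d N : ℕ) (hk : 1 ≤ k) (hh : 16 * k ≤ h) (hd : h ^ 16 ≤ d)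
    (hd' : d < (h + 1) ^ 16) (hN : (4 * k * h + 1) ^ d ≤ N) :
    ∃ A : Finset (ZMod N), A.Nonempty ∧ (d : ℝ) / 4 ≤ Real.log ((N : ℝ) / (A.card : ℝ)) ∧
      Real.log ((N : ℝ) / (A.card : ℝ)) ≤ 2 * Real.log (32 * k) * d ∧
      ∀ (Γ : Finset (ZMod N)) (ε : ℝ), 0 < ε →
        (∀ x : ZMod N,
            (∀ γ ∈ Γ, |((γ * x).val : ℝ) / (N : ℝ)
              - ((round (((γ * x).val : ℝ) / (N : ℝ)) : ℤ) : ℝ)| ≤ ε) →
            ∃ a b : Fin k → ZMod N, (∀ i, a i ∈ A) ∧ (∀ i, b i ∈ A) ∧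
              x = ∑ i, a i - ∑ i, b i) →
        (d : ℝ) / 16 * Real.log h ≤ (Γ.card : ℝ) * Real.log (2 + 1 / ε) := by
  have h16 : 16 ≤ h := by omega
  have h1 : 1 ≤ h := by omega
  have hd2 : 2 ≤ d := by
    have h3 : h ^ 1 ≤ h ^ 16 := Nat.pow_le_pow_right (by omega) (by norm_num)
    rw [pow_one] at h3
    omega
  have hMeq : 2 * (2 * k * h) + 1 = 4 * k * h + 1 := by ring
  have hMd : 0 < (4 * k * h + 1) ^ d := by positivity
  have hN0 : 0 < N := lt_of_lt_of_le hMd hN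
  obtain ⟨q, hq1, hq2, hq3⟩ : ∃ q : ℕ, 1 ≤ q ∧ q * (4 * k * h + 1) ^ d ≤ N ∧
      N < (q + 1) * (4 * k * h + 1) ^ d := by
    refine ⟨N / (4 * k * h + 1) ^ d, (Nat.one_le_div_iff hMd).2 hN, Nat.div_mul_le_self _ _, ?_⟩
    rw [mul_comm]
    exact Nat.lt_mul_div_succ N hMd
  obtain ⟨J, hJ8, hJ8'⟩ : ∃ J : ℕ, 8 * k * J ≤ q ∧ q < 8 * k * (J + 1) :=
    ⟨q / (8 * k), Nat.mul_div_le q (8 * k), Nat.lt_mul_div_succ q (by omega)⟩
  have hJq : 2 * (2 * k * J) < q := by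
    have e1 : 2 * (2 * (2 * k * J)) = 8 * k * J := by ring
    omega
  have hN' : q * (2 * (2 * k * h) + 1) ^ d ≤ N := by rw [hMeq]; exact hq2
  obtain ⟨R, hRdef⟩ : ∃ R : ℕ, R = 4 * (2 * (2 * k * h) + 1) ^ (2 * d) := ⟨_, rfl⟩
  obtain ⟨S, hS⟩ : ∃ S : ℕ, S = 32 * (4 * k * h + 1) * h := ⟨_, rfl⟩
  obtain ⟨W, hW⟩ : ∃ W : ℕ, W = 2 * S * d * h ^ 2 := ⟨_, rfl⟩
  obtain ⟨T, hT⟩ : ∃ T : ℕ, T = 2 * S * d := ⟨_, rfl⟩
  have hR1 : 1 ≤ R := by
    have : 0 < (2 * (2 * k * h) + 1) ^ (2 * d) := by positivity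
    omega
  have hnb := num_big k h d hk hh hd hd'
  rw [← hRdef, ← hS, ← hW] at hnb
  have hSpos : 1 ≤ S := by rw [hS]; exact fin_a1 k h h1
  have huni := uni_main d h S (2 * k * h) R (d * h) (d / 2) (2 * k * Nat.sqrt W)
    (by omega) h1 hSpos hR1 hnb
  rw [← hW, ← hT] at huni
  obtain ⟨v, hv1, hv2⟩ := huni
  clear hnb hd'
  obtain ⟨Y, hY⟩ : ∃ Y, Y = Yv d h W T v := ⟨_, rfl⟩
  rw [← hY] at hv1
  have hYbox : Y ⊆ box d h := by rw [hY]; exact Finset.filter_subset _ _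
  have hcard := set_card N q d k h J hk hN' hJq Y hYbox
  have hYpos : 0 < Y.card := by
    rcases Nat.eq_zero_or_pos Y.card with h0 | h0
    · rw [h0] at hv1
      have : 0 < (2 * h + 1) ^ d := by positivity
      omega
    · exact h0
  have hYle : Y.card ≤ (2 * h + 1) ^ d := by
    rw [← card_box d h]; exact Finset.card_le_card hYbox
  refine ⟨SA N q (2 * (2 * k * h) + 1) d J Y, ?_, ?_, ?_, ?_⟩
  · rw [← Finset.card_pos, hcard]; exact Nat.mul_pos hYpos (Nat.succ_pos _)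
  · rw [hcard]
    exact nlo_low k h d q J Y.card N hk h1 hd2 hq1 hq2 hJ8 hYpos hYle
  · rw [hcard]
    exact nlo_up k h d q J Y.card N hk (by omega) hq1 hq3 hJ8' hN0 hv1
  · intro Γ ε hε hB
    by_contra hcon
    push Not at hcon
    have hR0 : (0 : ℝ) < (R : ℝ) := by
      exact_mod_cast hR1
    obtain ⟨Q, hQdef⟩ : ∃ Q : ℕ, Q = ⌈2 / ε⌉₊ := ⟨_, rfl⟩
    have hQ1 : 1 ≤ Q := Nat.one_le_iff_ne_zero.2 (by
      have : 0 < Q := by rw [hQdef]; exact Nat.ceil_pos.2 (by positivity)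
      omega)
    have hQle : (Q : ℝ) ≤ 1 + 2 / ε := by
      have := Nat.ceil_lt_add_one (a := 2 / ε) (by positivity)
      rw [hQdef]
      linarith
    have hQge : 2 / ε ≤ (Q : ℝ) := by rw [hQdef]; exact Nat.le_ceil _
    obtain ⟨e, hedef⟩ : ∃ e : ℕ, e = min ⌊ε * R / 2⌋₊ R := ⟨_, rfl⟩
    have heR : e ≤ R := by rw [hedef]; exact min_le_right _ _
    have he2 : 2 * (e : ℝ) ≤ ε * R := by
      have h1' : (e : ℝ) ≤ (⌊ε * R / 2⌋₊ : ℝ) := by
        rw [hedef]; exact_mod_cast min_le_left _ _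
      have h2' : (⌊ε * R / 2⌋₊ : ℝ) ≤ ε * R / 2 := Nat.floor_le (by positivity)
      linarith
    have hRQ : R ≤ Q * (e + 1) := by
      rcases le_total ⌊ε * R / 2⌋₊ R with hc | hc
      · have hee : e = ⌊ε * R / 2⌋₊ := by rw [hedef]; exact min_eq_left hc
        have h3 : ε * R / 2 < (e : ℝ) + 1 := by rw [hee]; exact Nat.lt_floor_add_one _
        have h4 : (R : ℝ) ≤ (Q : ℝ) * ((e : ℝ) + 1) := by
          calc (R : ℝ) = 2 / ε * (ε * R / 2) := by field_simp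
            _ ≤ (Q : ℝ) * ((e : ℝ) + 1) := by
              apply mul_le_mul hQge h3.le (by positivity) (by positivity)
        exact_mod_cast h4
      · have hee : e = R := by rw [hedef]; exact min_eq_right hc
        rw [hee]
        calc R ≤ R + 1 := Nat.le_succ _
          _ = 1 * (R + 1) := (one_mul _).symm
          _ ≤ Q * (R + 1) := Nat.mul_le_mul_right _ hQ1
    obtain ⟨G, hG⟩ : ∃ G : Finset (ZMod R),
        G = Γ.image (fun γ => ((round ((γ.val : ℝ) * q * R / N) : ℤ) : ZMod R)) := ⟨_, rfl⟩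
    have hGc : G.card ≤ Γ.card := by rw [hG]; exact Finset.card_image_le
    have hΓc : Γ.card ≤ d * h := nlo_card h d Γ.card ε h1 hε hcon
    have hb := boh_card (2 * k * h) d R Q e hR1 hQ1 G hRQ
    have hb2 : (4 * k * h + 1) ^ d ≤ 2 * (Q ^ Γ.card *
        (KB (2 * (2 * k * h) + 1) d (2 * k * h) R G e).card) := by
      rw [← hMeq]
      refine hb.trans ?_
      exact Nat.mul_le_mul_left _ (Nat.mul_le_mul_right _ (Nat.pow_le_pow_right hQ1 hGc))
    have hb3 := nlo_big k h d Γ.card (KB (2 * (2 * k * h) + 1) d (2 * k * h) R G e).card Q ε hk hh hd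
      hε hQ1 hQle hcon hb2
    rw [← hMeq] at hb3
    obtain ⟨j, y, hy, hty⟩ := hv2 G e (hGc.trans hΓc) heR hb3
    have hy' := fin_mem_KB hy
    have hdg := dig_abs_half (2 * k * h) d y hy'.1
    obtain ⟨a, b, ha, hb', hab⟩ := hB (((q : ℤ) * dg (2 * (2 * k * h) + 1) d y : ℤ) : ZMod N) (by
      intro γ hγ
      have hn1 : 1 ≤ Γ.card := Finset.card_pos.2 ⟨γ, hγ⟩
      have hεM := nlo_eps k h d Γ.card ε hk h1 hn1 hε hcon
      refine cmp_main N q R e hN0 (by omega) γ ε (dg (2 * (2 * k * h) + 1) d y) he2 ?_ ?_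
      · have h5 : 2 * |(dg (2 * (2 * k * h) + 1) d y : ℝ)| ≤ ((4 * k * h + 1 : ℕ) : ℝ) ^ d := by
          have h6 : ((2 * |dg (2 * (2 * k * h) + 1) d y| : ℤ) : ℝ)
              ≤ (((((2 * (2 * k * h) + 1 : ℕ) : ℤ) ^ d - 1 : ℤ)) : ℝ) := by exact_mod_cast hdg
          push_cast at h6
          push_cast
          have e3 : (2 * (2 * (k : ℝ) * h) + 1) = (4 * k * h + 1) := by ring
          rw [e3] at h6
          linarith
        have h7 : (R : ℝ) = 4 * (((4 * k * h + 1 : ℕ) : ℝ) ^ d * ((4 * k * h + 1 : ℕ) : ℝ) ^ d) := by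
          rw [hRdef, hMeq]
          push_cast
          ring
        have h8 : 1 ≤ ε * ((4 * k * h + 1 : ℕ) : ℝ) ^ d := by
          have := mul_le_mul_of_nonneg_left hεM hε.le
          rwa [mul_one_div_cancel hε.ne'] at this
        have h9 : (0 : ℝ) < ((4 * k * h + 1 : ℕ) : ℝ) ^ d := by positivity
        exact fin_a3 _ _ ε _ h5 h7 h8 h9 (abs_nonneg _)
      · exact hy'.2 _ (by rw [hG]; exact Finset.mem_image_of_mem _ hγ))
    rw [hY] at ha hb'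
    have hfin := set_diff N q d k h J W _ hk hN' hJq v y hy'.1 a b ha hb' hab j
    exact absurd hty (not_lt.2 hfin)

theorem fin_main (k : ℕ) (hk : 1 ≤ k) :
    ∃ c : ℝ, 0 < c ∧ ∃ C : ℝ, 0 < C ∧ ∃ l₀ : ℝ, ∀ N : ℕ, 0 < N → ∀ l : ℝ, l₀ ≤ l →
      l * Real.log l ≤ c * Real.log N →
      ∃ A : Finset (ZMod N), A.Nonempty ∧ l ≤ Real.log ((N : ℝ) / (A.card : ℝ)) ∧
        Real.log ((N : ℝ) / (A.card : ℝ)) ≤ C * l ∧
        ∀ (Γ : Finset (ZMod N)) (ε : ℝ), 0 < ε →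
          (∀ x : ZMod N,
              (∀ γ ∈ Γ, |((γ * x).val : ℝ) / (N : ℝ)
                - ((round (((γ * x).val : ℝ) / (N : ℝ)) : ℤ) : ℝ)| ≤ ε) →
              ∃ a b : Fin k → ZMod N, (∀ i, a i ∈ A) ∧ (∀ i, b i ∈ A) ∧
                x = ∑ i, a i - ∑ i, b i) →
          c * (Real.log ((N : ℝ) / (A.card : ℝ)) * Real.log (Real.log ((N : ℝ) / (A.card : ℝ))))
            ≤ (Γ.card : ℝ) * Real.log (2 + 1 / ε) := by
  have hkR : (1 : ℝ) ≤ k := by exact_mod_cast hk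
  have hC1 : 1 ≤ Real.log (32 * k) := by
    rw [Real.le_log_iff_exp_le (by positivity)]
    have := Real.exp_one_lt_d9
    nlinarith
  set D := Real.log (32 * k) with hD
  have hc10 : 1 / (1024 * D) ≤ 1 / 10 := by
    apply one_div_le_one_div_of_le (by norm_num); nlinarith
  refine ⟨1 / (1024 * D), by positivity, 10 * D, by positivity, ((16 * k : ℕ) : ℝ) ^ 16, ?_⟩
  intro N hN l hl hlN
  have hl5 : (16 : ℝ) ≤ l := by
    refine le_trans ?_ hl
    have h2 : (16 : ℝ) ≤ ((16 * k : ℕ) : ℝ) := by push_cast; linarith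
    have h3 : ((16 * k : ℕ) : ℝ) ^ 1 ≤ ((16 * k : ℕ) : ℝ) ^ 16 :=
      pow_le_pow_right₀ (by linarith) (by norm_num)
    rw [pow_one] at h3
    linarith
  obtain ⟨h, hh1, hh2⟩ := num_root ⌈4 * l⌉₊
  set d := ⌈4 * l⌉₊ with hd
  have hd1 : 4 * l ≤ (d : ℝ) := Nat.le_ceil _
  have hd2 : (d : ℝ) ≤ 5 * l := by
    have := Nat.ceil_lt_add_one (a := 4 * l) (by positivity)
    linarith
  have hhk : 16 * k ≤ h := by
    have h4 : ((16 * k : ℕ) : ℝ) ^ 16 < (((h + 1 : ℕ)) : ℝ) ^ 16 := by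
      have h5 : (d : ℝ) < (((h + 1 : ℕ)) : ℝ) ^ 16 := by exact_mod_cast hh2
      linarith
    have h6 : (16 * k) ^ 16 < (h + 1) ^ 16 := by exact_mod_cast h4
    have h7 : 16 * k < h + 1 := lt_of_pow_lt_pow_left₀ 16 (by omega) h6
    omega
  have h16 : 16 ≤ h := by omega
  have hMd : 4 * k * h + 1 ≤ d := le_trans (fin_a2 k h hk hhk) hh1
  have hd0 : (0 : ℝ) < d := by linarith
  have hNpow : (4 * k * h + 1) ^ d ≤ N := by
    have hNR : (0 : ℝ) < N := by exact_mod_cast hN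
    have h9 : Real.log (((4 * k * h + 1 : ℕ) : ℝ) ^ d) ≤ Real.log N := by
      rw [Real.log_pow]
      have h10 : Real.log ((4 * k * h + 1 : ℕ) : ℝ) ≤ Real.log d :=
        Real.log_le_log (by positivity) (by exact_mod_cast hMd)
      have h11 : Real.log d ≤ 2 * Real.log l := by
        have e4 : 2 * Real.log l = Real.log (l ^ 2) := by rw [Real.log_pow]; norm_num
        rw [e4]
        exact Real.log_le_log hd0 (fin_a6 _ _ hd2 hl5)
      have hll : 0 ≤ Real.log l := Real.log_nonneg (by linarith)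
      have hlNn : 0 ≤ Real.log N := Real.log_natCast_nonneg N
      calc (d : ℝ) * Real.log ((4 * k * h + 1 : ℕ) : ℝ) ≤ (5 * l) * (2 * Real.log l) := by
            apply mul_le_mul hd2 (h10.trans h11) _ (by linarith)
            exact Real.log_natCast_nonneg _
        _ = 10 * (l * Real.log l) := by ring
        _ ≤ 10 * (1 / (1024 * D) * Real.log N) := by linarith
        _ ≤ Real.log N := fin_a5 _ _ hc10 hlNn
    have h12 := (Real.log_le_log_iff (by positivity) hNR).1 h9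
    exact_mod_cast h12
  obtain ⟨A, hA, hlow, hup, hB⟩ := fin_core k h d N hk hhk hh1 hh2 hNpow
  refine ⟨A, hA, by linarith, ?_, ?_⟩
  · exact fin_a4 _ _ _ _ hC1 hup hd2
  · intro Γ ε hε hx
    refine le_trans ?_ (hB Γ ε hε hx)
    set L := Real.log ((N : ℝ) / (A.card : ℝ)) with hL
    have hL0 : 0 < L := by linarith
    have hlog := nlo_log k h d hk hhk hh2 L hL0 hup
    have hlh : 0 ≤ Real.log h := Real.log_natCast_nonneg h
    have h13 : L * Real.log L ≤ (2 * D * d) * (32 * Real.log h) := by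
      calc L * Real.log L ≤ L * (32 * Real.log h) := mul_le_mul_of_nonneg_left hlog hL0.le
        _ ≤ (2 * D * d) * (32 * Real.log h) := mul_le_mul_of_nonneg_right hup (by positivity)
    calc 1 / (1024 * D) * (L * Real.log L)
        ≤ 1 / (1024 * D) * ((2 * D * d) * (32 * Real.log h)) :=
          mul_le_mul_of_nonneg_left h13 (by positivity)
      _ = (d : ℝ) / 16 * Real.log h := by field_simp; ring

end Pool.H53.BT
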