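import Pool.Agent.H53.BT.CHE

set_option autoImplicit false

/-!
Row AVG: many tuples `v` have a large digit set `Yv`.

`avg_sum`: double counting: sum_v |Yv v| = sum_{y in box} #{v : forall j, (ip (v j) y)^2 <= W}
and the set of tuples is a `Fintype.piFinset` with T equal factors.
`avg_pow`: for S >= 2 one has (S-1)^S * 4 >= S^S (induction or Bernoulli: S = 2: equality; the
sequence (1-1/S)^S increases; simplest: for S even, (1-1/S)^(S/2) >= 1 - 1/2 by
`one_add_mul_le_pow`).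
`avg_main`: with T = S*d and g = #{w : (ip w y)^2 <= W}: S*g >= (S-1)*2^d (`che_good`), so
S^T g^T >= (S-1)^T 2^(dT), and 4^d (S-1)^T >= S^T (avg_pow to the power d); hence
4^d g^T >= 2^(dT) for each y, sum over y: 4^d * sum_v |Yv v| >= (2h+1)^d 2^(dT).
Let a = number of v with (2h+1)^d <= 2*4^d*|Yv v|. Then
4^d sum_v |Yv v| <= 4^d a (2h+1)^d + (1/2)(2h+1)^d 2^(dT) (all tuples number 2^(dT), |Yv| <= (2h+1)^d),
so 2*4^d*a >= 2^(dT).
-/

namespace Pool.H53.BT

theorem avg_sum (d h W T : ℕ) :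
    ∑ v : Fin T → Fin d → Bool, (Yv d h W T v).card
      = ∑ y ∈ box d h, ((Finset.univ : Finset (Fin d → Bool)).filter
          (fun w => (ip w y) ^ 2 ≤ (W : ℤ))).card ^ T := by
  have h1 : ∀ v : Fin T → Fin d → Bool, (Yv d h W T v).card =
      ∑ y ∈ box d h, if (∀ j, (ip (v j) y) ^ 2 ≤ (W : ℤ)) then 1 else 0 := by
    intro v
    unfold Yv
    rw [Finset.card_filter]
  rw [Finset.sum_congr rfl fun v _ => h1 v, Finset.sum_comm]
  refine Finset.sum_congr rfl fun y _ => ?_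
  rw [← Finset.card_filter]
  have h2 : (Finset.univ : Finset (Fin T → Fin d → Bool)).filter
      (fun v => ∀ j, (ip (v j) y) ^ 2 ≤ (W : ℤ)) =
      Fintype.piFinset fun _ : Fin T => (Finset.univ : Finset (Fin d → Bool)).filter
          (fun w => (ip w y) ^ 2 ≤ (W : ℤ)) := by
    ext v
    simp [Fintype.mem_piFinset]
  rw [h2, Fintype.card_piFinset, Finset.prod_const, Finset.card_univ, Fintype.card_fin]

theorem avg_pow (S : ℕ) (hS : 1 ≤ S) : (2 * S) ^ (2 * S) ≤ 4 * (2 * S - 1) ^ (2 * S) := by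
  have h1 : (2 * S) ^ S ≤ 2 * (2 * S - 1) ^ S := by
    have hS' : (1 : ℝ) ≤ S := by exact_mod_cast hS
    have h2 : (1 : ℝ) + (S : ℕ) * (-(1 / (2 * S))) ≤ (1 + -(1 / (2 * (S : ℝ)))) ^ S := by
      apply one_add_mul_le_pow
      have : (1 : ℝ) / (2 * S) ≤ 1 / 2 := by
        apply div_le_div_of_nonneg_left <;> linarith
      linarith
    have h3 : (1 : ℝ) + (S : ℕ) * (-(1 / (2 * S))) = 1 / 2 := by
      field_simp
      ring
    rw [h3] at h2
    have h4 : (1 + -(1 / (2 * (S : ℝ)))) * (2 * S) = 2 * S - 1 := by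
      field_simp
      ring
    have h5 : ((2 * S : ℝ)) ^ S ≤ 2 * (2 * S - 1) ^ S := by
      rw [← h4, mul_pow (1 + -(1 / (2 * (S : ℝ)))) (2 * (S : ℝ)) S]
      have h6 : (0 : ℝ) ≤ (2 * S) ^ S := by positivity
      have h9 := mul_le_mul_of_nonneg_right h2 h6
      linarith
    have h7 : ((2 * S - 1 : ℕ) : ℝ) = 2 * S - 1 := by
      rw [Nat.cast_sub (by omega)]
      push_cast
      ring
    have h8 : (((2 * S) ^ S : ℕ) : ℝ) ≤ ((2 * (2 * S - 1) ^ S : ℕ) : ℝ) := by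
      push_cast
      rw [h7]
      exact h5
    exact_mod_cast h8
  calc (2 * S) ^ (2 * S) = ((2 * S) ^ S) ^ 2 := by rw [← pow_mul, mul_comm S 2]
    _ ≤ (2 * (2 * S - 1) ^ S) ^ 2 := Nat.pow_le_pow_left h1 2
    _ = 4 * (2 * S - 1) ^ (2 * S) := by rw [mul_pow, ← pow_mul, mul_comm S 2]; norm_num

theorem avg_main (d h S : ℕ) (hd : 1 ≤ d) (hh : 1 ≤ h) (hS : 1 ≤ S) :
    2 ^ (d * (2 * S * d)) ≤ 2 * 4 ^ d *
      ((Finset.univ : Finset (Fin (2 * S * d) → Fin d → Bool)).filter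
        (fun v => (2 * h + 1) ^ d ≤ 2 * 4 ^ d *
          (Yv d h (2 * S * d * h ^ 2) (2 * S * d) v).card)).card := by
  set T := 2 * S * d with hT
  set H := (2 * h + 1) ^ d with hH
  have hH0 : 0 < H := by positivity
  have hy : ∀ y ∈ box d h, 2 ^ (d * T) ≤ 4 ^ d * ((Finset.univ : Finset (Fin d → Bool)).filter
          (fun w => (ip w y) ^ 2 ≤ ((T * h ^ 2 : ℕ) : ℤ))).card ^ T := by
    intro y hy
    have h1 := che_good d h (2 * S) hd hh y hy
    rw [← hT] at h1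
    set g := ((Finset.univ : Finset (Fin d → Bool)).filter
          (fun w => (ip w y) ^ 2 ≤ ((T * h ^ 2 : ℕ) : ℤ))).card with hg
    have h2 : ((2 * S - 1) * 2 ^ d) ^ T ≤ (2 * S * g) ^ T := Nat.pow_le_pow_left h1 T
    have h3 : (2 * S) ^ T ≤ 4 ^ d * (2 * S - 1) ^ T := by
      have := Nat.pow_le_pow_left (avg_pow S hS) d
      rw [mul_pow 4, ← pow_mul, ← pow_mul, ← hT] at this
      exact this
    rw [mul_pow (2 * S - 1), mul_pow (2 * S) g, ← pow_mul] at h2
    have h4 : (2 * S - 1) ^ T * 2 ^ (d * T) ≤ (2 * S - 1) ^ T * (4 ^ d * g ^ T) :=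
      calc (2 * S - 1) ^ T * 2 ^ (d * T) ≤ (2 * S) ^ T * g ^ T := h2
        _ ≤ (4 ^ d * (2 * S - 1) ^ T) * g ^ T := Nat.mul_le_mul_right _ h3
        _ = _ := by ring
    have h5 : 0 < (2 * S - 1) ^ T := by
      apply Nat.pow_pos
      omega
    exact Nat.le_of_mul_le_mul_left h4 h5
  have hsum : H * 2 ^ (d * T) ≤ 4 ^ d * ∑ v : Fin T → Fin d → Bool, (Yv d h (T * h ^ 2) T v).card := by
    rw [avg_sum, Finset.mul_sum]
    calc H * 2 ^ (d * T) = ∑ _y ∈ box d h, 2 ^ (d * T) := by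
          rw [Finset.sum_const, smul_eq_mul, card_box]
      _ ≤ _ := Finset.sum_le_sum hy
  set Gd := (Finset.univ : Finset (Fin T → Fin d → Bool)).filter
        (fun v => H ≤ 2 * 4 ^ d * (Yv d h (T * h ^ 2) T v).card) with hGd
  have hYle : ∀ v, (Yv d h (T * h ^ 2) T v).card ≤ H := by
    intro v
    rw [hH, ← card_box]
    unfold Yv
    exact Finset.card_filter_le _ _
  have hpt : ∀ v : Fin T → Fin d → Bool, 2 * 4 ^ d * (Yv d h (T * h ^ 2) T v).card ≤
      (if H ≤ 2 * 4 ^ d * (Yv d h (T * h ^ 2) T v).card then 2 * 4 ^ d * H else 0) + H := by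
    intro v
    split_ifs with hc
    · have := Nat.mul_le_mul_left (2 * 4 ^ d) (hYle v)
      omega
    · omega
  have hcu : (Finset.univ : Finset (Fin T → Fin d → Bool)).card = 2 ^ (d * T) := by
    simp [← pow_mul]
  have htot : 2 * 4 ^ d * ∑ v : Fin T → Fin d → Bool, (Yv d h (T * h ^ 2) T v).card ≤
      2 * 4 ^ d * H * Gd.card + H * 2 ^ (d * T) := by
    rw [Finset.mul_sum]
    refine (Finset.sum_le_sum fun v _ => hpt v).trans ?_
    rw [Finset.sum_add_distrib, Finset.sum_const, smul_eq_mul, hcu, ← Finset.sum_filter, Finset.sum_const,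
      smul_eq_mul, ← hGd]
    apply le_of_eq
    ring
  have hfin : H * 2 ^ (d * T) ≤ H * (2 * 4 ^ d * Gd.card) := by
    have e1 : 2 * 4 ^ d * H * Gd.card = H * (2 * 4 ^ d * Gd.card) := by ring
    have e2 : 2 * 4 ^ d * ∑ v : Fin T → Fin d → Bool, (Yv d h (T * h ^ 2) T v).card =
      2 * (4 ^ d * ∑ v : Fin T → Fin d → Bool, (Yv d h (T * h ^ 2) T v).card) := by ring
    rw [e1, e2] at htot
    omega
  exact Nat.le_of_mul_le_mul_left hfin hH0

end Pool.H53.BT
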