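import Pool.Agent.H53.BT.Defs

set_option autoImplicit false

/-!
Row CHE: second moment of a random signed sum.

`che_sum`: induction on d: `Fin.consEquiv`/`Fin.cons` splitting (`Fintype.sum_equiv` with
`Fin.consEquiv`, `Fintype.sum_prod_type`), (s y_0 + z)^2 summed over s = +-1 gives
2 y_0^2 + 2 z^2. (Alternative: expand the square, cross terms vanish by the involution flipping v_i.)
`che_bad`: `S*d*h^2 * #bad <= sum_v (ip v y)^2 = 2^d sum y_i^2 <= 2^d d h^2`, divide by `d h^2 > 0`.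
`che_good`: complement.
-/

namespace Pool.H53.BT

theorem che_ip_cons (d : ℕ) (b : Bool) (w : Fin d → Bool) (y : Fin (d + 1) → ℤ) :
    ip (Fin.cons b w : Fin (d + 1) → Bool) y = sg b * y 0 + ip w (fun i => y i.succ) := by
  unfold ip
  rw [Fin.sum_univ_succ]
  simp

theorem che_sum (d : ℕ) (y : Fin d → ℤ) :
    ∑ v : Fin d → Bool, (ip v y) ^ 2 = 2 ^ d * ∑ i, (y i) ^ 2 := by
  induction d with
  | zero => simp [ip]
  | succ d ih =>
    have h1 : ∑ v : Fin (d + 1) → Bool, (ip v y) ^ 2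
        = ∑ p : Bool × (Fin d → Bool), (ip (Fin.cons p.1 p.2 : Fin (d + 1) → Bool) y) ^ 2 := by
      symm
      exact Fintype.sum_equiv (Fin.consEquiv (fun _ : Fin (d + 1) => Bool)) _ _ (fun p => rfl)
    rw [h1, Fintype.sum_prod_type]
    have h2 : ∀ b : Bool, ∑ w : Fin d → Bool, (ip (Fin.cons b w : Fin (d + 1) → Bool) y) ^ 2
        = ∑ w : Fin d → Bool, (sg b * y 0 + ip w (fun i => y i.succ)) ^ 2 := by
      intro b
      exact Finset.sum_congr rfl fun w _ => by rw [che_ip_cons]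
    rw [Fintype.sum_bool, h2, h2, ← Finset.sum_add_distrib]
    have h3 : ∀ w : Fin d → Bool, (sg true * y 0 + ip w (fun i => y i.succ)) ^ 2
        + (sg false * y 0 + ip w (fun i => y i.succ)) ^ 2
        = 2 * (y 0) ^ 2 + 2 * (ip w (fun i => y i.succ)) ^ 2 := by
      intro w
      simp only [sg]
      norm_num
      ring
    have h4 : ∑ w : Fin d → Bool, 2 * (ip w (fun i => y i.succ)) ^ 2
        = 2 * (2 ^ d * ∑ i : Fin d, (y i.succ) ^ 2) := by
      rw [← Finset.mul_sum, ih (fun i => y i.succ)]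
    rw [Finset.sum_congr rfl fun w _ => h3 w, Finset.sum_add_distrib, h4, Fin.sum_univ_succ]
    simp only [Finset.sum_const, Finset.card_univ, Fintype.card_fun, Fintype.card_bool,
      Fintype.card_fin, nsmul_eq_mul]
    push_cast
    ring

theorem che_le (d h : ℕ) (y : Fin d → ℤ) (hy : y ∈ box d h) :
    ∑ i, (y i) ^ 2 ≤ (d : ℤ) * (h : ℤ) ^ 2 := by
  have h1 : ∀ i ∈ (Finset.univ : Finset (Fin d)), (y i) ^ 2 ≤ (h : ℤ) ^ 2 := by
    intro i _
    have := mem_box.1 hy i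
    exact sq_le_sq' (abs_le.1 this).1 (abs_le.1 this).2
  have h2 := Finset.sum_le_card_nsmul _ _ _ h1
  simpa [nsmul_eq_mul] using h2

theorem che_bad (d h S : ℕ) (hd : 1 ≤ d) (hh : 1 ≤ h) (y : Fin d → ℤ) (hy : y ∈ box d h) :
    S * ((Finset.univ : Finset (Fin d → Bool)).filter
      (fun v => ((S * d * h ^ 2 : ℕ) : ℤ) < (ip v y) ^ 2)).card ≤ 2 ^ d := by
  set B := (Finset.univ : Finset (Fin d → Bool)).filter
      (fun v => ((S * d * h ^ 2 : ℕ) : ℤ) < (ip v y) ^ 2) with hB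
  have h1 : (B.card : ℤ) * ((S * d * h ^ 2 : ℕ) : ℤ) ≤ ∑ v ∈ B, (ip v y) ^ 2 := by
    have := Finset.card_nsmul_le_sum B (fun v => (ip v y) ^ 2) ((S * d * h ^ 2 : ℕ) : ℤ)
      (fun v hv => (Finset.mem_filter.1 hv).2.le)
    simpa [nsmul_eq_mul] using this
  have h2 : ∑ v ∈ B, (ip v y) ^ 2 ≤ ∑ v : Fin d → Bool, (ip v y) ^ 2 :=
    Finset.sum_le_sum_of_subset_of_nonneg (Finset.subset_univ _) (fun v _ _ => sq_nonneg _)
  have h3 := che_sum d y
  have h4 := che_le d h y hy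
  have h5 : (2 : ℤ) ^ d * ∑ i, (y i) ^ 2 ≤ 2 ^ d * ((d : ℤ) * (h : ℤ) ^ 2) :=
    mul_le_mul_of_nonneg_left h4 (by positivity)
  have h6 : (B.card : ℤ) * ((S * d * h ^ 2 : ℕ) : ℤ) ≤ 2 ^ d * ((d : ℤ) * (h : ℤ) ^ 2) :=
    h1.trans (h2.trans (h3 ▸ h5))
  have h7 : (0 : ℤ) < (d : ℤ) * (h : ℤ) ^ 2 := by
    have : (0 : ℤ) < d := by exact_mod_cast hd
    have : (0 : ℤ) < h := by exact_mod_cast hh
    positivity
  have h8 : ((S : ℤ) * B.card) * ((d : ℤ) * (h : ℤ) ^ 2) ≤ 2 ^ d * ((d : ℤ) * (h : ℤ) ^ 2) := by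
    refine le_trans (le_of_eq ?_) h6
    push_cast
    ring
  have h9 : (S : ℤ) * B.card ≤ 2 ^ d := le_of_mul_le_mul_right h8 h7
  exact_mod_cast h9

theorem che_good (d h S : ℕ) (hd : 1 ≤ d) (hh : 1 ≤ h) (y : Fin d → ℤ) (hy : y ∈ box d h) :
    (S - 1) * 2 ^ d ≤ S * ((Finset.univ : Finset (Fin d → Bool)).filter
      (fun v => (ip v y) ^ 2 ≤ ((S * d * h ^ 2 : ℕ) : ℤ))).card := by
  have h1 := che_bad d h S hd hh y hy
  have h2 : ((Finset.univ : Finset (Fin d → Bool)).filter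
      (fun v => (ip v y) ^ 2 ≤ ((S * d * h ^ 2 : ℕ) : ℤ))).card
      + ((Finset.univ : Finset (Fin d → Bool)).filter
      (fun v => ((S * d * h ^ 2 : ℕ) : ℤ) < (ip v y) ^ 2)).card = 2 ^ d := by
    have h3 := Finset.card_filter_add_card_filter_not (s := (Finset.univ : Finset (Fin d → Bool)))
      (fun v => (ip v y) ^ 2 ≤ ((S * d * h ^ 2 : ℕ) : ℤ))
    simp only [not_le] at h3
    rw [h3]
    simp
  rw [Nat.sub_mul, one_mul, ← h2, Nat.mul_add]
  omega

end Pool.H53.BT
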