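import Pool.Agent.H53.BT.Defs

set_option autoImplicit false

/-!
Row CNT: number of small subsets, and the fibre bound.

`cnt_small`: the map (g : Fin w -> Option a) |-> {x : exists i, g i = some x} is onto the subsets
with at most w elements (enumerate s by `s.equivFin` or by a list and pad with none).
`cnt_fib`: V = {v : forall y in K, |ip v y| <= t}, I = support of tau. For v, v0 in V which agree off
I let D = {i : v i != v0 i}, a subset of I. Take sigma = v in `Shat`: y in K, and y' in K for
sigma' = not v. For i in I: sg (v i) * (y i - y' i) >= 1 (thresholds). For i in D: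
sg (v i) - sg (v0 i) = 2 sg (v i). Hence
ip v (y-y') - ip v0 (y-y') = sum_{i in D} 2 sg (v i) (y i - y' i) >= 2|D|, while it is <= 4t; so
|D| <= 2t. v is determined by v0 and D, so each fibre of the map
v |-> (fun i => if i in I then false else v i) on V has at most (d+1)^(2t) elements (`cnt_small`),
and the image has at most 2^(d-|I|) elements (`Finset.card_le_mul_card_image`).
-/

namespace Pool.H53.BT

theorem cnt_small {α : Type} [Fintype α] [DecidableEq α] (w : ℕ) :
    ((Finset.univ : Finset (Finset α)).filter (fun s => s.card ≤ w)).card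
      ≤ (Fintype.card α + 1) ^ w := by
  have hsub : (Finset.univ : Finset (Finset α)).filter (fun s => s.card ≤ w) ⊆
      (Finset.univ : Finset (Fin w → Option α)).image
        (fun g => Finset.univ.filter (fun x => ∃ i, g i = some x)) := by
    intro s hs
    rw [Finset.mem_filter] at hs
    rw [Finset.mem_image]
    refine ⟨fun i => if h : (i : ℕ) < s.card then some (s.equivFin.symm ⟨i, h⟩ : α) else none,
      Finset.mem_univ _, ?_⟩
    ext x
    rw [Finset.mem_filter]
    constructor
    · rintro ⟨_, i, hi⟩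
      beta_reduce at hi
      by_cases h : (i : ℕ) < s.card
      · rw [dif_pos h, Option.some.injEq] at hi
        rw [← hi]
        exact (s.equivFin.symm ⟨i, h⟩).2
      · rw [dif_neg h] at hi
        exact absurd hi (by simp)
    · intro hx
      refine ⟨Finset.mem_univ _, ?_⟩
      have h1 : (s.equivFin ⟨x, hx⟩ : ℕ) < s.card := (s.equivFin ⟨x, hx⟩).2
      refine ⟨⟨(s.equivFin ⟨x, hx⟩ : ℕ), lt_of_lt_of_le h1 hs.2⟩, ?_⟩
      beta_reduce
      rw [dif_pos h1]
      simp
  calc ((Finset.univ : Finset (Finset α)).filter (fun s => s.card ≤ w)).card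
      ≤ ((Finset.univ : Finset (Fin w → Option α)).image
        (fun g => Finset.univ.filter (fun x => ∃ i, g i = some x))).card :=
        Finset.card_le_card hsub
    _ ≤ (Finset.univ : Finset (Fin w → Option α)).card := Finset.card_image_le
    _ = (Fintype.card α + 1) ^ w := by
        rw [Finset.card_univ, Fintype.card_fun, Fintype.card_option, Fintype.card_fin]

theorem cnt_gap {r d : ℕ} {K : Finset (Fin d → ℤ)} {τ : Fin d → ℤ} (hτ : Shat r K τ)
    {t : ℕ} {v v0 : Fin d → Bool} (hv : ∀ y ∈ K, |ip v y| ≤ (t : ℤ))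
    (hv0 : ∀ y ∈ K, |ip v0 y| ≤ (t : ℤ)) (hoff : ∀ i, τ i = -(r : ℤ) → v i = v0 i) :
    ((Finset.univ : Finset (Fin d)).filter (fun i => v i ≠ v0 i)).card ≤ 2 * t := by
  obtain ⟨y, hy, hy1⟩ := hτ v
  obtain ⟨y', hy', hy1'⟩ := hτ (fun i => !(v i))
  have hge : ∀ i, v i ≠ v0 i → 1 ≤ sg (v i) * (y i - y' i) := by
    intro i hi
    have h1 : τ i ≠ -(r : ℤ) := fun h => hi (hoff i h)
    have h2 := hy1 i h1
    have h3 := hy1' i h1
    cases hvi : v i with
    | true =>
      rw [hvi] at h2 h3
      simp only [Bool.not_true, Bool.false_eq_true, iff_false, not_le, iff_true] at h2 h3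
      simp only [sg, if_true, one_mul]
      omega
    | false =>
      rw [hvi] at h2 h3
      simp only [Bool.not_false, Bool.false_eq_true, iff_false, not_le, iff_true] at h2 h3
      simp only [sg, Bool.false_eq_true, if_false]
      omega
  have hdiff : ip v (y - y') - ip v0 (y - y') =
      ∑ i ∈ (Finset.univ : Finset (Fin d)).filter (fun i => v i ≠ v0 i),
        2 * (sg (v i) * (y i - y' i)) := by
    unfold ip
    rw [← Finset.sum_sub_distrib, Finset.sum_filter]
    refine Finset.sum_congr rfl fun i _ => ?_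
    rw [Pi.sub_apply]
    by_cases h : v i = v0 i
    · rw [if_neg (not_not.2 h), h]
      ring
    · rw [if_pos h]
      have h4 : sg (v0 i) = - sg (v i) := by
        cases hvi : v i <;> cases hvi0 : v0 i <;> simp_all [sg]
      rw [h4]
      ring
  have hlow : 2 * (((Finset.univ : Finset (Fin d)).filter (fun i => v i ≠ v0 i)).card : ℤ) ≤
      ip v (y - y') - ip v0 (y - y') := by
    rw [hdiff]
    have h5 : ∑ i ∈ (Finset.univ : Finset (Fin d)).filter (fun i => v i ≠ v0 i), (2 : ℤ) ≤
        ∑ i ∈ (Finset.univ : Finset (Fin d)).filter (fun i => v i ≠ v0 i),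
        2 * (sg (v i) * (y i - y' i)) := by
      refine Finset.sum_le_sum fun i hi => ?_
      have := hge i (Finset.mem_filter.1 hi).2
      omega
    rw [Finset.sum_const, nsmul_eq_mul] at h5
    linarith
  have hup : ip v (y - y') - ip v0 (y - y') ≤ 4 * (t : ℤ) := by
    rw [ip_sub, ip_sub]
    have a1 := abs_le.1 (hv y hy)
    have a2 := abs_le.1 (hv y' hy')
    have a3 := abs_le.1 (hv0 y hy)
    have a4 := abs_le.1 (hv0 y' hy')
    linarith [a1.1, a1.2, a2.1, a2.2, a3.1, a3.2, a4.1, a4.2]
  have h6 := hlow.trans hup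
  omega

theorem cnt_img {d : ℕ} (I : Finset (Fin d)) (V : Finset (Fin d → Bool)) :
    (V.image (fun v i => if i ∈ I then false else v i)).card ≤ 2 ^ (d - I.card) := by
  have hsub : V.image (fun v i => if i ∈ I then false else v i) ⊆
      Fintype.piFinset (fun i : Fin d => if i ∈ I then {false} else Finset.univ) := by
    intro w hw
    rw [Finset.mem_image] at hw
    obtain ⟨v, _, rfl⟩ := hw
    rw [Fintype.mem_piFinset]
    intro i
    by_cases h : i ∈ I <;> simp [h]
  refine (Finset.card_le_card hsub).trans ?_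
  rw [Fintype.card_piFinset]
  have h1 : ∀ i : Fin d, (if i ∈ I then ({false} : Finset Bool) else Finset.univ).card =
      if i ∈ I then 1 else 2 := by
    intro i
    by_cases h : i ∈ I <;> simp [h]
  rw [Finset.prod_congr rfl fun i _ => h1 i, Finset.prod_ite]
  simp only [Finset.prod_const_one, one_mul, Finset.prod_const]
  have h2 : (Finset.univ.filter (fun i => i ∉ I)) = Iᶜ := by
    ext i
    simp
  rw [h2, Finset.card_compl, Fintype.card_fin]

theorem cnt_fib (r d s t : ℕ) (K : Finset (Fin d → ℤ)) (τ : Fin d → ℤ) (hτ : Shat r K τ)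
    (hs : s < ((Finset.univ : Finset (Fin d)).filter (fun i => τ i ≠ -(r : ℤ))).card) :
    ((Finset.univ : Finset (Fin d → Bool)).filter
      (fun v => ∀ y ∈ K, |ip v y| ≤ (t : ℤ))).card * 2 ^ (s + 1) ≤ 2 ^ d * (d + 1) ^ (2 * t) := by
  set I := (Finset.univ : Finset (Fin d)).filter (fun i => τ i ≠ -(r : ℤ)) with hI
  set V := (Finset.univ : Finset (Fin d → Bool)).filter (fun v => ∀ y ∈ K, |ip v y| ≤ (t : ℤ))
    with hV
  have hId : I.card ≤ d := by
    have := Finset.card_le_univ I
    rwa [Fintype.card_fin] at this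
  have hfib : ∀ a ∈ V.image (fun (v : Fin d → Bool) (i : Fin d) => if i ∈ I then false else v i),
      (V.filter (fun v => (fun (i : Fin d) => if i ∈ I then false else v i) = a)).card
        ≤ (d + 1) ^ (2 * t) := by
    intro a ha
    rw [Finset.mem_image] at ha
    obtain ⟨v0, hv0, rfl⟩ := ha
    have hv0' := (Finset.mem_filter.1 hv0).2
    have hcard := cnt_small (α := Fin d) (2 * t)
    rw [Fintype.card_fin] at hcard
    refine le_trans ?_ hcard
    refine Finset.card_le_card_of_injOn
      (fun v => (Finset.univ : Finset (Fin d)).filter (fun i => v i ≠ v0 i)) ?_ ?_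
    · intro v hv
      have hv1 := Finset.mem_filter.1 (Finset.mem_coe.1 hv)
      have hv2 := (Finset.mem_filter.1 hv1.1).2
      rw [Finset.mem_coe, Finset.mem_filter]
      refine ⟨Finset.mem_univ _, cnt_gap hτ hv2 hv0' ?_⟩
      intro i hi
      have h1 := congrFun hv1.2 i
      have h2 : i ∉ I := by
        rw [hI, Finset.mem_filter]
        simp [hi]
      simpa [h2] using h1
    · intro v _ w _ hvw
      funext i
      have h1 := Finset.ext_iff.1 hvw i
      simp only [Finset.mem_filter, Finset.mem_univ, true_and] at h1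
      cases hvi : v i <;> cases hwi : w i <;> cases h0 : v0 i <;> simp_all
  have h1 : V.card ≤ (d + 1) ^ (2 * t) *
      (V.image (fun (v : Fin d → Bool) (i : Fin d) => if i ∈ I then false else v i)).card :=
    Finset.card_le_mul_card_image V _ hfib
  have h2 := cnt_img I V
  have h3 : 2 ^ (s + 1) ≤ 2 ^ I.card := Nat.pow_le_pow_right (by norm_num) hs
  calc V.card * 2 ^ (s + 1) ≤ ((d + 1) ^ (2 * t) * 2 ^ (d - I.card)) * 2 ^ I.card :=
        Nat.mul_le_mul (h1.trans (Nat.mul_le_mul_left _ h2)) h3
    _ = 2 ^ d * (d + 1) ^ (2 * t) := by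
        rw [mul_assoc, ← pow_add, Nat.sub_add_cancel hId, mul_comm]

end Pool.H53.BT
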