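import Pool.Agent.H53.BT.Defs

set_option autoImplicit false

/-!
Row DIG: balanced base `M` digits.

`dig_abs`: |sum u_i M^i| <= (M-1)(M^d-1)/(M-1) = M^d - 1 (induction on d with
`Fin.sum_univ_castSucc`, or bound by the geometric sum).
`dig_zero`: induction on d with `Fin.sum_univ_succ`: modulo M the digit u_0 is divisible by M and
|u_0| <= M-1 so u_0 = 0, divide by M.
`dig_abs_half`: apply `dig_abs` to 2y, as 2r = M-1.
`dig_surj`: `dg M d` is injective on `box d r` (by `dig_zero` for the difference), the box has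
M^d elements (`card_box`), maps into `Finset.Icc (-X) X` with 2X+1 = M^d, so it is onto.
-/

namespace Pool.H53.BT

theorem DIG_castSucc (M d : ℕ) (u : Fin (d + 1) → ℤ) :
    dg M (d + 1) u = dg M d (fun i => u i.castSucc) + u (Fin.last d) * (M : ℤ) ^ d := by
  unfold dg
  rw [Fin.sum_univ_castSucc]
  simp

theorem DIG_succ (M d : ℕ) (u : Fin (d + 1) → ℤ) :
    dg M (d + 1) u = u 0 + (M : ℤ) * dg M d (fun i => u i.succ) := by
  unfold dg
  rw [Fin.sum_univ_succ, Finset.mul_sum]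
  simp only [Fin.val_zero, pow_zero, mul_one, Fin.val_succ, add_right_inj]
  refine Finset.sum_congr rfl fun i _ => ?_
  ring

theorem dig_abs (M d : ℕ) (hM : 1 ≤ M) (u : Fin d → ℤ) (hu : ∀ i, |u i| ≤ (M : ℤ) - 1) :
    |dg M d u| ≤ (M : ℤ) ^ d - 1 := by
  induction d with
  | zero => simp [dg]
  | succ d ih =>
    rw [DIG_castSucc]
    have h1 := ih (fun i => u i.castSucc) (fun i => hu _)
    have hp : (0 : ℤ) ≤ (M : ℤ) ^ d := by positivity
    have h2 : |u (Fin.last d) * (M : ℤ) ^ d| ≤ ((M : ℤ) - 1) * (M : ℤ) ^ d := by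
      rw [abs_mul, abs_of_nonneg hp]
      exact mul_le_mul_of_nonneg_right (hu _) hp
    have h3 := abs_add_le (dg M d (fun i => u i.castSucc)) (u (Fin.last d) * (M : ℤ) ^ d)
    rw [pow_succ]
    linarith

theorem dig_zero (M d : ℕ) (hM : 1 ≤ M) (u : Fin d → ℤ) (hu : ∀ i, |u i| ≤ (M : ℤ) - 1)
    (h : dg M d u = 0) : u = 0 := by
  induction d with
  | zero => exact funext fun i => i.elim0
  | succ d ih =>
    rw [DIG_succ] at h
    have hdvd : (M : ℤ) ∣ u 0 := ⟨-dg M d (fun i => u i.succ), by linarith⟩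
    have h0 : u 0 = 0 := by
      refine Int.eq_zero_of_abs_lt_dvd hdvd ?_
      have := hu 0
      linarith
    rw [h0, zero_add] at h
    have hM' : (M : ℤ) ≠ 0 := by
      have : (1 : ℤ) ≤ (M : ℤ) := by exact_mod_cast hM
      linarith
    have h1 : dg M d (fun i => u i.succ) = 0 := (mul_eq_zero.1 h).resolve_left hM'
    have h2 := ih (fun i => u i.succ) (fun i => hu _) h1
    funext i
    refine Fin.cases ?_ ?_ i
    · exact h0
    · intro j
      exact congrFun h2 j

theorem DIG_mul (M d : ℕ) (y : Fin d → ℤ) : dg M d (fun i => 2 * y i) = 2 * dg M d y := by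
  unfold dg
  rw [Finset.mul_sum]
  exact Finset.sum_congr rfl fun i _ => by ring

theorem dig_abs_half (r d : ℕ) (y : Fin d → ℤ) (hy : y ∈ box d r) :
    2 * |dg (2 * r + 1) d y| ≤ ((2 * r + 1 : ℕ) : ℤ) ^ d - 1 := by
  have h1 := dig_abs (2 * r + 1) d (by omega) (fun i => 2 * y i) (by
    intro i
    have h := mem_box.1 hy i
    rw [abs_mul, abs_of_pos (by norm_num : (0 : ℤ) < 2)]
    push_cast
    linarith)
  rw [DIG_mul, abs_mul, abs_of_pos (by norm_num : (0 : ℤ) < 2)] at h1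
  exact h1

theorem DIG_inj (r d : ℕ) (y z : Fin d → ℤ) (hy : y ∈ box d r) (hz : z ∈ box d r)
    (h : dg (2 * r + 1) d y = dg (2 * r + 1) d z) : y = z := by
  have h1 : dg (2 * r + 1) d (y - z) = 0 := by rw [dg_sub, h, sub_self]
  have h2 := dig_zero (2 * r + 1) d (by omega) (y - z) (by
    intro i
    have ha := mem_box.1 hy i
    have hb := mem_box.1 hz i
    rw [Pi.sub_apply]
    have hc := abs_sub (y i) (z i)
    push_cast
    linarith) h1
  exact sub_eq_zero.1 h2

theorem dig_surj (r d : ℕ) (n : ℤ) (hn : 2 * |n| ≤ ((2 * r + 1 : ℕ) : ℤ) ^ d - 1) :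
    ∃ y ∈ box d r, dg (2 * r + 1) d y = n := by
  classical
  obtain ⟨X, hX⟩ : ∃ X : ℕ, (2 * r + 1) ^ d = 2 * X + 1 := by
    have : Odd ((2 * r + 1) ^ d) := Odd.pow ⟨r, rfl⟩
    obtain ⟨X, hX⟩ := this
    exact ⟨X, hX⟩
  have hXZ : ((2 * r + 1 : ℕ) : ℤ) ^ d = 2 * (X : ℤ) + 1 := by exact_mod_cast hX
  have himg : (box d r).image (dg (2 * r + 1) d) = Finset.Icc (-(X : ℤ)) (X : ℤ) := by
    refine Finset.eq_of_subset_of_card_le ?_ ?_
    · intro m hm
      obtain ⟨y, hy, rfl⟩ := Finset.mem_image.1 hm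
      have h1 := dig_abs_half r d y hy
      rw [hXZ] at h1
      rw [Finset.mem_Icc]
      exact abs_le.1 (by linarith)
    · rw [Finset.card_image_of_injOn, card_box, hX, Int.card_Icc]
      · omega
      · intro y hy z hz h
        exact DIG_inj r d y z hy hz h
  have hmem : n ∈ Finset.Icc (-(X : ℤ)) (X : ℤ) := by
    rw [hXZ] at hn
    rw [Finset.mem_Icc]
    exact abs_le.1 (by linarith)
  rw [← himg, Finset.mem_image] at hmem
  obtain ⟨y, hy, h⟩ := hmem
  exact ⟨y, hy, h⟩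

end Pool.H53.BT
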