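import Mathlib

set_option autoImplicit false

/-!
Helper definitions for `MP_169871_nt.BohrTradeoff`: sign sums, balanced digits,
the convex digit set `Yv` and discretised Bohr sets `KB`.
-/

namespace Pool.H53.BT

/-- Sign of a Boolean. -/
def sg (b : Bool) : ℤ := if b then 1 else -1

/-- Signed sum of the entries of `y`. -/
def ip {d : ℕ} (v : Fin d → Bool) (y : Fin d → ℤ) : ℤ := ∑ i, sg (v i) * y i

/-- The integer with base `M` digits `y`. -/
def dg (M d : ℕ) (y : Fin d → ℤ) : ℤ := ∑ i : Fin d, y i * (M : ℤ) ^ (i : ℕ)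

/-- Integer vectors with all entries in `[-r, r]`. -/
noncomputable def box (d r : ℕ) : Finset (Fin d → ℤ) :=
  Fintype.piFinset fun _ => Finset.Icc (-(r : ℤ)) (r : ℤ)

/-- Vectors in the box of radius `h` whose signed sums for all the sign vectors `v j`
have square at most `W`. -/
noncomputable def Yv (d h W T : ℕ) (v : Fin T → Fin d → Bool) : Finset (Fin d → ℤ) :=
  (box d h).filter fun y => ∀ j, (ip (v j) y) ^ 2 ≤ (W : ℤ)

/-- Digit vectors `y` in the box of radius `r` such that `g * dg y` is within `e` of `0`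
in `ZMod R` for all `g` in `G`. -/
noncomputable def KB (M d r R : ℕ) (G : Finset (ZMod R)) (e : ℕ) : Finset (Fin d → ℤ) :=
  (box d r).filter fun y => ∀ g ∈ G, ((g * ((dg M d y : ℤ) : ZMod R)).valMinAbs).natAbs ≤ e

/-- `K` shatters the threshold pattern `τ` (a threshold equal to `-r` is inactive). -/
def Shat {d : ℕ} (r : ℕ) (K : Finset (Fin d → ℤ)) (τ : Fin d → ℤ) : Prop :=
  ∀ σ : Fin d → Bool, ∃ y ∈ K, ∀ i, τ i ≠ -(r : ℤ) → (τ i ≤ y i ↔ σ i = true)

theorem sg_sq (b : Bool) : sg b ^ 2 = 1 := by cases b <;> simp [sg]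

theorem sg_abs (b : Bool) : |sg b| = 1 := by cases b <;> simp [sg]

theorem mem_box {d r : ℕ} {y : Fin d → ℤ} : y ∈ box d r ↔ ∀ i, |y i| ≤ (r : ℤ) := by
  unfold box
  rw [Fintype.mem_piFinset]
  constructor
  · intro h i
    have := Finset.mem_Icc.1 (h i)
    exact abs_le.2 this
  · intro h i
    exact Finset.mem_Icc.2 (abs_le.1 (h i))

theorem card_box (d r : ℕ) : (box d r).card = (2 * r + 1) ^ d := by
  unfold box
  rw [Fintype.card_piFinset]
  simp only [Int.card_Icc, Finset.prod_const, Finset.card_univ, Fintype.card_fin]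
  congr 1
  omega

theorem mem_Yv {d h W T : ℕ} {v : Fin T → Fin d → Bool} {y : Fin d → ℤ} :
    y ∈ Yv d h W T v ↔ (∀ i, |y i| ≤ (h : ℤ)) ∧ ∀ j, (ip (v j) y) ^ 2 ≤ (W : ℤ) := by
  unfold Yv
  rw [Finset.mem_filter, mem_box]

theorem ip_add {d : ℕ} (v : Fin d → Bool) (y z : Fin d → ℤ) :
    ip v (y + z) = ip v y + ip v z := by
  unfold ip
  rw [← Finset.sum_add_distrib]
  exact Finset.sum_congr rfl fun i _ => by simp [mul_add]

theorem ip_sub {d : ℕ} (v : Fin d → Bool) (y z : Fin d → ℤ) :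
    ip v (y - z) = ip v y - ip v z := by
  unfold ip
  rw [← Finset.sum_sub_distrib]
  exact Finset.sum_congr rfl fun i _ => by simp [mul_sub]

theorem dg_add (M : ℕ) {d : ℕ} (y z : Fin d → ℤ) :
    dg M d (y + z) = dg M d y + dg M d z := by
  unfold dg
  rw [← Finset.sum_add_distrib]
  exact Finset.sum_congr rfl fun i _ => by simp [add_mul]

theorem dg_sub (M : ℕ) {d : ℕ} (y z : Fin d → ℤ) :
    dg M d (y - z) = dg M d y - dg M d z := by
  unfold dg
  rw [← Finset.sum_sub_distrib]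
  exact Finset.sum_congr rfl fun i _ => by simp [sub_mul]

theorem ip_sum {d k : ℕ} (v : Fin d → Bool) (y : Fin k → Fin d → ℤ) :
    ip v (∑ i, y i) = ∑ i, ip v (y i) := by
  unfold ip
  rw [Finset.sum_comm]
  exact Finset.sum_congr rfl fun i _ => by rw [Finset.sum_apply, Finset.mul_sum]

theorem dg_sum (M : ℕ) {d k : ℕ} (y : Fin k → Fin d → ℤ) :
    dg M d (∑ i, y i) = ∑ i, dg M d (y i) := by
  unfold dg
  rw [Finset.sum_comm]
  exact Finset.sum_congr rfl fun i _ => by rw [Finset.sum_apply, Finset.sum_mul]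

end Pool.H53.BT
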