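import Pool.Agent.H53.BT.Defs

set_option autoImplicit false

/-!
Row PAJ: Pajor type lemma for integer valued vectors.

`paj_card`: |K| <= number of shattered patterns, by induction on d.
For a in [-r,r] let K_a = {y' : Fin.cons a y' in K}. |K| = sum_a |K_a| <= sum_a |Sh(K_a)|
= sum_{tau'} |R(tau')| with R(tau') = {a : tau' in Sh(K_a)}. If R = R(tau') is nonempty, then
Fin.cons (-r) tau' is shattered by K, and so is Fin.cons b tau' for every b in R different from
min R: for sigma_0 = true use a = b (b <= b), for sigma_0 = false use a = min R (not b <= min R).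
Since -r is not in R minus its minimum, the number of b with Fin.cons b tau' shattered by K is
at least 1 + (|R| - 1) = |R|. Sum over tau'.
`paj_few`: patterns with support of size <= s: sum over the support I of (2r+1)^|I|
(the patterns with support I lie in a `Fintype.piFinset` with card (2r+1)^|I|), <= 2^d (2r+1)^s.
`paj_main`: combine.
-/

namespace Pool.H53.BT

/-- Slice of `K` at first coordinate `a`. -/
noncomputable def PAJ_slice {d : ℕ} (r : ℕ) (K : Finset (Fin (d + 1) → ℤ)) (a : ℤ) :
    Finset (Fin d → ℤ) :=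
  (box d r).filter (fun y' => (Fin.cons a y' : Fin (d + 1) → ℤ) ∈ K)

theorem PAJ_cons_mem_box {d r : ℕ} (a : ℤ) (y : Fin d → ℤ) :
    (Fin.cons a y : Fin (d + 1) → ℤ) ∈ box (d + 1) r ↔
      a ∈ Finset.Icc (-(r : ℤ)) (r : ℤ) ∧ y ∈ box d r := by
  rw [mem_box, mem_box, Finset.mem_Icc, Fin.forall_fin_succ]
  simp only [Fin.cons_zero, Fin.cons_succ]
  rw [abs_le]

/-- cardinality of a subset of the box as a sum over the slices. -/
theorem PAJ_card_slice {d : ℕ} (r : ℕ) (K : Finset (Fin (d + 1) → ℤ)) (hK : K ⊆ box (d + 1) r) :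
    K.card = ∑ a ∈ Finset.Icc (-(r : ℤ)) (r : ℤ), (PAJ_slice r K a).card := by
  classical
  rw [Finset.card_eq_sum_card_fiberwise (f := fun y : Fin (d + 1) → ℤ => y 0)
    (t := Finset.Icc (-(r : ℤ)) (r : ℤ))]
  · refine Finset.sum_congr rfl fun a _ => ?_
    refine Finset.card_bij' (fun y _ => Fin.tail y) (fun y' _ => Fin.cons a y') ?_ ?_ ?_ ?_
    · intro y hy
      rw [Finset.mem_filter] at hy
      have h1 : (Fin.cons a (Fin.tail y) : Fin (d + 1) → ℤ) = y := by
        rw [← hy.2]; exact Fin.cons_self_tail y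
      refine Finset.mem_filter.2 ⟨?_, ?_⟩
      · have h2 := hK hy.1
        rw [← h1, PAJ_cons_mem_box] at h2
        exact h2.2
      · rw [h1]; exact hy.1
    · intro y' hy'
      exact Finset.mem_filter.2 ⟨(Finset.mem_filter.1 hy').2, rfl⟩
    · intro y hy
      rw [Finset.mem_filter] at hy
      show (Fin.cons a (Fin.tail y) : Fin (d + 1) → ℤ) = y
      rw [← hy.2]; exact Fin.cons_self_tail y
    · intro y' hy'
      exact Fin.tail_cons (α := fun _ : Fin (d + 1) => ℤ) a y'
  · intro y hy
    have h2 := hK hy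
    rw [mem_box] at h2
    have := abs_le.1 (h2 0)
    exact Finset.mem_coe.2 (Finset.mem_Icc.2 this)

theorem PAJ_shat_inactive {d : ℕ} (r : ℕ) (K : Finset (Fin (d + 1) → ℤ)) (m : ℤ)
    (τ : Fin d → ℤ) (h : Shat r (PAJ_slice r K m) τ) :
    Shat r K (Fin.cons (-(r : ℤ)) τ : Fin (d + 1) → ℤ) := by
  intro σ
  obtain ⟨y, hy, hy2⟩ := h (fun i => σ i.succ)
  refine ⟨Fin.cons m y, (Finset.mem_filter.1 hy).2, ?_⟩
  intro i
  refine Fin.cases ?_ ?_ i
  · intro h0
    exact absurd (Fin.cons_zero _ _) h0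
  · intro j hj
    simp only [Fin.cons_succ] at hj ⊢
    exact hy2 j hj

theorem PAJ_shat_active {d : ℕ} (r : ℕ) (K : Finset (Fin (d + 1) → ℤ)) (m b : ℤ)
    (τ : Fin d → ℤ) (hm : Shat r (PAJ_slice r K m) τ) (hb : Shat r (PAJ_slice r K b) τ)
    (hmb : m < b) :
    Shat r K (Fin.cons b τ : Fin (d + 1) → ℤ) := by
  intro σ
  rcases Bool.eq_false_or_eq_true (σ 0) with h0 | h0
  · obtain ⟨y, hy, hy2⟩ := hb (fun i => σ i.succ)
    refine ⟨Fin.cons b y, (Finset.mem_filter.1 hy).2, ?_⟩
    intro i
    refine Fin.cases ?_ ?_ i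
    · intro _
      simp [h0]
    · intro j hj
      simp only [Fin.cons_succ] at hj ⊢
      exact hy2 j hj
  · obtain ⟨y, hy, hy2⟩ := hm (fun i => σ i.succ)
    refine ⟨Fin.cons m y, (Finset.mem_filter.1 hy).2, ?_⟩
    intro i
    refine Fin.cases ?_ ?_ i
    · intro _
      simp [h0, hmb]
    · intro j hj
      simp only [Fin.cons_succ] at hj ⊢
      exact hy2 j hj

open Classical in
theorem PAJ_fiber {d : ℕ} (r : ℕ) (K : Finset (Fin (d + 1) → ℤ)) (τ : Fin d → ℤ) :
    ((Finset.Icc (-(r : ℤ)) (r : ℤ)).filter (fun a => Shat r (PAJ_slice r K a) τ)).card ≤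
    ((Finset.Icc (-(r : ℤ)) (r : ℤ)).filter
      (fun b => Shat r K (Fin.cons b τ : Fin (d + 1) → ℤ))).card := by
  set R := (Finset.Icc (-(r : ℤ)) (r : ℤ)).filter (fun a => Shat r (PAJ_slice r K a) τ) with hR
  rcases R.eq_empty_or_nonempty with he | hne
  · rw [he]; simp
  · set m := R.min' hne with hm
    have hmR : m ∈ R := R.min'_mem hne
    have hmS : Shat r (PAJ_slice r K m) τ := (Finset.mem_filter.1 hmR).2
    have hmI := Finset.mem_Icc.1 (Finset.mem_filter.1 hmR).1
    have hlt : ∀ b ∈ R, b ≠ m → m < b := fun b hb hbm =>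
      lt_of_le_of_ne (R.min'_le b hb) (Ne.symm hbm)
    refine Finset.card_le_card_of_injOn (fun b => if b = m then (-(r : ℤ)) else b) ?_ ?_
    · intro b hb
      have hb' : b ∈ R := hb
      by_cases hbm : b = m
      · simp only [hbm, if_true, Finset.coe_filter, Set.mem_ofPred_eq]
        refine ⟨Finset.mem_Icc.2 ⟨le_refl _, by omega⟩, PAJ_shat_inactive r K m τ hmS⟩
      · simp only [hbm, if_false, Finset.coe_filter, Set.mem_ofPred_eq]
        exact ⟨(Finset.mem_filter.1 hb').1,
          PAJ_shat_active r K m b τ hmS (Finset.mem_filter.1 hb').2 (hlt b hb' hbm)⟩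
    · intro b hb c hc hbc
      have hb' : b ∈ R := hb
      have hc' : c ∈ R := hc
      by_cases hbm : b = m <;> by_cases hcm : c = m
      · rw [hbm, hcm]
      · have := hlt c hc' hcm
        simp only [hbm, if_true, hcm, if_false] at hbc
        omega
      · have := hlt b hb' hbm
        simp only [hbm, if_false, hcm, if_true] at hbc
        omega
      · simpa only [hbm, if_false, hcm] using hbc

open Classical in
theorem paj_card (r d : ℕ) (K : Finset (Fin d → ℤ)) (hK : K ⊆ box d r) :
    K.card ≤ ((box d r).filter (fun τ => Shat r K τ)).card := by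
  induction d with
  | zero =>
    rcases K.eq_empty_or_nonempty with he | ⟨y, hy⟩
    · rw [he]; simp
    · refine Finset.card_le_card ?_
      intro z hz
      refine Finset.mem_filter.2 ⟨hK hz, ?_⟩
      intro σ
      exact ⟨y, hy, fun i => i.elim0⟩
  | succ d ih =>
    have h1 := PAJ_card_slice r K hK
    have h2 := PAJ_card_slice r ((box (d + 1) r).filter (fun τ => Shat r K τ))
      (Finset.filter_subset _ _)
    rw [h1, h2]
    have h3 : ∀ a ∈ Finset.Icc (-(r : ℤ)) (r : ℤ),
        PAJ_slice r ((box (d + 1) r).filter (fun τ => Shat r K τ)) a =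
          (box d r).filter (fun τ => Shat r K (Fin.cons a τ : Fin (d + 1) → ℤ)) := by
      intro a ha
      unfold PAJ_slice
      ext τ
      simp only [Finset.mem_filter]
      constructor
      · rintro ⟨h4, _, h5⟩
        exact ⟨h4, h5⟩
      · rintro ⟨h4, h5⟩
        exact ⟨h4, (PAJ_cons_mem_box a τ).2 ⟨ha, h4⟩, h5⟩
    rw [Finset.sum_congr rfl (fun a ha => congrArg Finset.card (h3 a ha))]
    calc ∑ a ∈ Finset.Icc (-(r : ℤ)) (r : ℤ), (PAJ_slice r K a).card
        ≤ ∑ a ∈ Finset.Icc (-(r : ℤ)) (r : ℤ),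
            ((box d r).filter (fun τ => Shat r (PAJ_slice r K a) τ)).card :=
          Finset.sum_le_sum fun a _ => ih _ (Finset.filter_subset _ _)
      _ = ∑ τ ∈ box d r, ((Finset.Icc (-(r : ℤ)) (r : ℤ)).filter
            (fun a => Shat r (PAJ_slice r K a) τ)).card := by
          simp only [Finset.card_filter]
          exact Finset.sum_comm
      _ ≤ ∑ τ ∈ box d r, ((Finset.Icc (-(r : ℤ)) (r : ℤ)).filter
            (fun b => Shat r K (Fin.cons b τ : Fin (d + 1) → ℤ))).card :=
          Finset.sum_le_sum fun τ _ => PAJ_fiber r K τ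
      _ = ∑ a ∈ Finset.Icc (-(r : ℤ)) (r : ℤ),
            ((box d r).filter (fun τ => Shat r K (Fin.cons a τ : Fin (d + 1) → ℤ))).card := by
          simp only [Finset.card_filter]
          exact Finset.sum_comm

theorem paj_few (r d s : ℕ) :
    ((box d r).filter (fun τ => ((Finset.univ : Finset (Fin d)).filter
      (fun i => τ i ≠ -(r : ℤ))).card ≤ s)).card ≤ 2 ^ d * (2 * r + 1) ^ s := by
  classical
  have hsub : ((box d r).filter (fun τ => ((Finset.univ : Finset (Fin d)).filter
      (fun i => τ i ≠ -(r : ℤ))).card ≤ s)) ⊆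
      ((Finset.univ : Finset (Finset (Fin d))).filter (fun I => I.card ≤ s)).biUnion
        (fun I => Fintype.piFinset (fun i => if i ∈ I then Finset.Icc (-(r : ℤ)) (r : ℤ)
          else {-(r : ℤ)})) := by
    intro τ hτ
    rw [Finset.mem_filter] at hτ
    rw [Finset.mem_biUnion]
    refine ⟨(Finset.univ : Finset (Fin d)).filter (fun i => τ i ≠ -(r : ℤ)),
      Finset.mem_filter.2 ⟨Finset.mem_univ _, hτ.2⟩, ?_⟩
    rw [Fintype.mem_piFinset]
    intro i
    by_cases hi : τ i = -(r : ℤ)
    · simp [hi]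
    · have : i ∈ (Finset.univ : Finset (Fin d)).filter (fun i => τ i ≠ -(r : ℤ)) :=
        Finset.mem_filter.2 ⟨Finset.mem_univ _, hi⟩
      rw [if_pos this, Finset.mem_Icc]
      exact abs_le.1 (mem_box.1 hτ.1 i)
  refine le_trans (Finset.card_le_card hsub) (le_trans Finset.card_biUnion_le ?_)
  calc ∑ I ∈ (Finset.univ : Finset (Finset (Fin d))).filter (fun I => I.card ≤ s),
        (Fintype.piFinset (fun i => if i ∈ I then Finset.Icc (-(r : ℤ)) (r : ℤ)
          else {-(r : ℤ)})).card
      ≤ ∑ I ∈ (Finset.univ : Finset (Finset (Fin d))).filter (fun I => I.card ≤ s),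
        (2 * r + 1) ^ s := by
        refine Finset.sum_le_sum fun I hI => ?_
        rw [Fintype.card_piFinset]
        have h1 : ∀ i : Fin d, (if i ∈ I then Finset.Icc (-(r : ℤ)) (r : ℤ)
            else {-(r : ℤ)}).card = if i ∈ I then (2 * r + 1) else 1 := by
          intro i
          split_ifs
          · rw [Int.card_Icc]; omega
          · simp
        rw [Finset.prod_congr rfl (fun i _ => h1 i), Finset.prod_ite_mem]
        simp only [Finset.univ_inter, Finset.prod_const]
        exact Nat.pow_le_pow_right (by omega) (Finset.mem_filter.1 hI).2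
    _ ≤ ∑ I : Finset (Fin d), (2 * r + 1) ^ s :=
        Finset.sum_le_sum_of_subset (Finset.filter_subset _ _)
    _ = 2 ^ d * (2 * r + 1) ^ s := by
        rw [Finset.sum_const, Finset.card_univ, Fintype.card_finset, Fintype.card_fin, smul_eq_mul]

theorem paj_main (r d s : ℕ) (K : Finset (Fin d → ℤ)) (hK : K ⊆ box d r)
    (hs : 2 ^ d * (2 * r + 1) ^ s < K.card) :
    ∃ τ : Fin d → ℤ, Shat r K τ ∧
      s < ((Finset.univ : Finset (Fin d)).filter (fun i => τ i ≠ -(r : ℤ))).card := by
  classical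
  by_contra hcon
  push Not at hcon
  have h1 := paj_card r d K hK
  have h2 := paj_few r d s
  have h3 : ((box d r).filter (fun τ => Shat r K τ)).card ≤
      ((box d r).filter (fun τ => ((Finset.univ : Finset (Fin d)).filter
      (fun i => τ i ≠ -(r : ℤ))).card ≤ s)).card := by
    refine Finset.card_le_card ?_
    intro τ hτ
    rw [Finset.mem_filter] at hτ ⊢
    exact ⟨hτ.1, hcon τ hτ.2⟩
  omega

end Pool.H53.BT
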