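import Pool.Agent.H53.BT.AVG
import Pool.Agent.H53.BT.PAJ
import Pool.Agent.H53.BT.CNT

set_option autoImplicit false

/-!
Row UNI: the union bound. T = 2*S*d, W = 2*S*d*h^2.

By contradiction: every v with (2h+1)^d <= 2*4^d*|Yv v| (call it good) has a pair (G,e), |G| <= m, e <= R,
2^d M^s < |KB(G,e)| with |ip (v j) y| <= t for all j and y in KB(G,e). So
#good <= sum over pairs (G,e) (at most (R+1)^m * (R+1) pairs, `cnt_small` for alpha = ZMod R,
`ZMod.card`) of #{v : forall j, v j in V_K}, K = KB(G,e), which is |V_K|^T (`Fintype.card_piFinset`),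
and |V_K| * 2^(s+1) <= 2^d (d+1)^(2t) by `paj_main` and `cnt_fib`.
So #good * 2^((s+1)*T) <= (R+1)^(m+1) * (2^d (d+1)^(2t))^T, and with `avg_main`
2^(d*T) <= 2*4^d*#good. Multiply: contradiction to hbig.
-/

namespace Pool.H53.BT

theorem uni_sub (M d r R : ℕ) (G : Finset (ZMod R)) (e : ℕ) : KB M d r R G e ⊆ box d r := by
  unfold KB
  exact Finset.filter_subset _ _

theorem uni_main (d h S r R m s t : ℕ) (hd : 1 ≤ d) (hh : 1 ≤ h) (hS : 1 ≤ S) (hR : 1 ≤ R)
    (hbig : 2 * 4 ^ d * ((R + 1) ^ (m + 1) * (2 ^ d * (d + 1) ^ (2 * t)) ^ (2 * S * d))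
      < 2 ^ (d * (2 * S * d)) * 2 ^ ((s + 1) * (2 * S * d))) :
    ∃ v : Fin (2 * S * d) → Fin d → Bool,
      (2 * h + 1) ^ d ≤ 2 * 4 ^ d * (Yv d h (2 * S * d * h ^ 2) (2 * S * d) v).card ∧
      ∀ (G : Finset (ZMod R)) (e : ℕ), G.card ≤ m → e ≤ R →
        2 ^ d * (2 * r + 1) ^ s < (KB (2 * r + 1) d r R G e).card →
        ∃ j, ∃ y ∈ KB (2 * r + 1) d r R G e, (t : ℤ) < |ip (v j) y| := by
  have hNZ : NeZero R := ⟨by omega⟩
  by_contra hcon
  push Not at hcon
  set T := 2 * S * d with hT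
  set M := 2 * r + 1 with hM
  set B := 2 ^ d * (d + 1) ^ (2 * t) with hB
  let V : Finset (ZMod R) × ℕ → Finset (Fin d → Bool) := fun p =>
    (Finset.univ : Finset (Fin d → Bool)).filter
      (fun v => ∀ y ∈ KB M d r R p.1 p.2, |ip v y| ≤ (t : ℤ))
  let P : Finset (Finset (ZMod R) × ℕ) :=
    ((Finset.univ : Finset (Finset (ZMod R))).filter (fun s => s.card ≤ m) ×ˢ
      Finset.range (R + 1)).filter (fun p => 2 ^ d * M ^ s < (KB M d r R p.1 p.2).card)
  set Gd := (Finset.univ : Finset (Fin T → Fin d → Bool)).filter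
        (fun v => (2 * h + 1) ^ d ≤ 2 * 4 ^ d * (Yv d h (T * h ^ 2) T v).card) with hGd
  have hsub : Gd ⊆ P.biUnion (fun p => Fintype.piFinset fun _ : Fin T => V p) := by
    intro v hv
    have hv' := (Finset.mem_filter.1 hv).2
    obtain ⟨G, e, hG, he, hK, hall⟩ := hcon v hv'
    rw [Finset.mem_biUnion]
    refine ⟨(G, e), ?_, ?_⟩
    · rw [Finset.mem_filter, Finset.mem_product]
      exact ⟨⟨Finset.mem_filter.2 ⟨Finset.mem_univ _, hG⟩, Finset.mem_range.2 (by omega)⟩, hK⟩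
    · rw [Fintype.mem_piFinset]
      intro j
      exact Finset.mem_filter.2 ⟨Finset.mem_univ _, fun y hy => hall j y hy⟩
  have hPc : P.card ≤ (R + 1) ^ (m + 1) := by
    refine (Finset.card_filter_le _ _).trans ?_
    rw [Finset.card_product, Finset.card_range, pow_succ]
    have := cnt_small (α := ZMod R) m
    rw [ZMod.card] at this
    exact Nat.mul_le_mul_right _ this
  have hV : ∀ p ∈ P, (V p).card * 2 ^ (s + 1) ≤ B := by
    intro p hp
    have hp' := (Finset.mem_filter.1 hp).2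
    obtain ⟨τ, hτ, hs⟩ := paj_main r d s (KB M d r R p.1 p.2)
      (uni_sub M d r R p.1 p.2) hp'
    exact cnt_fib r d s t _ τ hτ hs
  have hcard : Gd.card * 2 ^ ((s + 1) * T) ≤ (R + 1) ^ (m + 1) * B ^ T := by
    calc Gd.card * 2 ^ ((s + 1) * T)
        ≤ (∑ p ∈ P, (Fintype.piFinset fun _ : Fin T => V p).card) * 2 ^ ((s + 1) * T) :=
          Nat.mul_le_mul_right _ ((Finset.card_le_card hsub).trans Finset.card_biUnion_le)
      _ = ∑ p ∈ P, ((V p).card * 2 ^ (s + 1)) ^ T := by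
          rw [Finset.sum_mul]
          refine Finset.sum_congr rfl fun p _ => ?_
          rw [Fintype.card_piFinset, Finset.prod_const, Finset.card_univ, Fintype.card_fin,
            mul_pow, ← pow_mul]
      _ ≤ ∑ _p ∈ P, B ^ T := Finset.sum_le_sum fun p hp => Nat.pow_le_pow_left (hV p hp) T
      _ = P.card * B ^ T := by rw [Finset.sum_const, smul_eq_mul]
      _ ≤ _ := Nat.mul_le_mul_right _ hPc
  have havg := avg_main d h S hd hh hS
  rw [← hT, ← hGd] at havg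
  have h1 : 2 ^ (d * T) * 2 ^ ((s + 1) * T) ≤ 2 * 4 ^ d * ((R + 1) ^ (m + 1) * B ^ T) :=
    calc 2 ^ (d * T) * 2 ^ ((s + 1) * T) ≤ (2 * 4 ^ d * Gd.card) * 2 ^ ((s + 1) * T) :=
          Nat.mul_le_mul_right _ havg
      _ = 2 * 4 ^ d * (Gd.card * 2 ^ ((s + 1) * T)) := by ring
      _ ≤ _ := Nat.mul_le_mul_left _ hcard
  omega

end Pool.H53.BT
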